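import Mathlib
import Pool.Agent.L7h49.PM.Def

/-!
# Project PM, part CON: coarse neighbourhoods of connected plane sets are connected
-/

set_option autoImplicit false

namespace Pool.Agent.L7h79.PM

open Pool.Agent.L7h49.PM

/-- Every vertex within distance `4C` of a vertex `u` near `A` is joined to `u` in `Fat A`. -/
theorem con_walk {V : Type} (G : SimpleGraph V) (f : V → E2) (C : ℝ) (A : Set E2)
    {v u : V} (p : G.Walk v u) (hu : ∃ q ∈ A, ‖f u - q‖ ≤ C) (hp : (p.length : ℝ) ≤ 4 * C) :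
    ∃ (hv : v ∈ Fat G f C A) (hu' : u ∈ Fat G f C A),
      (G.induce (Fat G f C A)).Reachable ⟨v, hv⟩ ⟨u, hu'⟩ := by
  induction p with
  | @nil u =>
    have h1 : u ∈ Fat G f C A := by
      refine ⟨u, hu, ?_⟩
      rw [SimpleGraph.dist_self]
      simpa using hp
    exact ⟨h1, h1, SimpleGraph.Reachable.refl _⟩
  | @cons v w u h p ih =>
    have hp' : (p.length : ℝ) ≤ 4 * C := by
      rw [SimpleGraph.Walk.length_cons] at hp
      push_cast at hp
      linarith
    obtain ⟨hw, hu', hr⟩ := ih hu hp'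
    have hv : v ∈ Fat G f C A := by
      refine ⟨u, hu, ?_⟩
      have h1 : G.dist v u ≤ (SimpleGraph.Walk.cons h p).length := SimpleGraph.dist_le _
      rw [SimpleGraph.dist_comm]
      have h2 : (G.dist v u : ℝ) ≤ ((SimpleGraph.Walk.cons h p).length : ℝ) := by exact_mod_cast h1
      linarith
    refine ⟨hv, hu', SimpleGraph.Reachable.trans ?_ hr⟩
    apply SimpleGraph.Adj.reachable
    exact h

theorem con_seg {V : Type} (G : SimpleGraph V) (hG : G.Connected) (f : V → E2) (C : ℝ) (A : Set E2)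
    {v u : V} (hu : ∃ q ∈ A, ‖f u - q‖ ≤ C) (hd : (G.dist u v : ℝ) ≤ 4 * C) :
    ∃ (hv : v ∈ Fat G f C A) (hu' : u ∈ Fat G f C A),
      (G.induce (Fat G f C A)).Reachable ⟨v, hv⟩ ⟨u, hu'⟩ := by
  obtain ⟨p, hp⟩ := hG.exists_walk_length_eq_dist v u
  apply con_walk G f C A p hu
  rw [hp, SimpleGraph.dist_comm]
  exact hd

theorem s_CON : S_CON := by
  intro V G f C hR A
  have hC := hR.one
  constructor
  · intro hA hne
    have hself : ∀ u : V, (∃ q ∈ A, ‖f u - q‖ ≤ C) → u ∈ Fat G f C A := by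
      intro u hu
      refine ⟨u, hu, ?_⟩
      rw [SimpleGraph.dist_self]
      push_cast
      linarith
    -- the relation
    have key : ∀ x ∈ A, ∀ y ∈ A, ∀ u v : V, ‖f u - x‖ ≤ C → ‖f v - y‖ ≤ C →
        ∀ (hu : u ∈ Fat G f C A) (hv : v ∈ Fat G f C A),
          (G.induce (Fat G f C A)).Reachable ⟨u, hu⟩ ⟨v, hv⟩ := by
      intro x hx y hy
      apply hA.induction₂ (fun x y => ∀ u v : V, ‖f u - x‖ ≤ C → ‖f v - y‖ ≤ C →
        ∀ (hu : u ∈ Fat G f C A) (hv : v ∈ Fat G f C A),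
          (G.induce (Fat G f C A)).Reachable ⟨u, hu⟩ ⟨v, hv⟩) _ _ _ hx hy
      · intro x hx
        have h1 : ∀ᶠ y in nhds x, y ∈ Metric.ball x C := Metric.ball_mem_nhds x (by linarith)
        refine Filter.Eventually.filter_mono nhdsWithin_le_nhds ?_
        filter_upwards [h1] with y hy u v hux hvy hu hv
        rw [Metric.mem_ball, dist_eq_norm] at hy
        have h2 : ‖f u - f v‖ ≤ 3 * C := by
          have h3 : f u - f v = (f u - x) - (y - x) - (f v - y) := by abel
          rw [h3]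
          calc ‖(f u - x) - (y - x) - (f v - y)‖ ≤ ‖(f u - x) - (y - x)‖ + ‖f v - y‖ := norm_sub_le _ _
            _ ≤ ‖f u - x‖ + ‖y - x‖ + ‖f v - y‖ := by
                have := norm_sub_le (f u - x) (y - x)
                linarith
            _ ≤ 3 * C := by linarith
        have h4 : (G.dist u v : ℝ) ≤ 4 * C := by
          have := abs_lt.1 (hR.near u v)
          linarith [this.1]
        obtain ⟨_, _, hr⟩ := con_seg G hR.conn f C A (v := v) (u := u) ⟨x, hx, hux⟩ h4
        exact hr.symm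
      · intro x y z _ hy _ h1 h2 u v hux hvz hu hv
        obtain ⟨w, hw⟩ := hR.net y
        have hw' : w ∈ Fat G f C A := hself w ⟨y, hy, hw.le⟩
        exact (h1 u w hux hw.le hu hw').trans (h2 w v hw.le hvz hw' hv)
      · intro x y _ _ h1 u v hu hv hu' hv'
        exact (h1 v u hv hu hv' hu').symm
    obtain ⟨x, hx⟩ := hne
    obtain ⟨w, hw⟩ := hR.net x
    have hw' : w ∈ Fat G f C A := hself w ⟨x, hx, hw.le⟩
    rw [SimpleGraph.connected_iff_exists_forall_reachable]
    refine ⟨⟨w, hw'⟩, ?_⟩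
    rintro ⟨v, hv⟩
    obtain ⟨u, ⟨p, hp, hup⟩, hd⟩ := hv
    obtain ⟨hv', hu', hr⟩ := con_seg G hR.conn f C A (v := v) (u := u) ⟨p, hp, hup⟩ hd
    exact (key x hx p hp w u hw.le hup hw' hu').trans hr.symm
  · rintro w ⟨u, ⟨p, hp, hup⟩, hd⟩
    refine ⟨p, hp, ?_⟩
    have h1 := abs_lt.1 (hR.near u w)
    have h2 : f w - p = (f u - p) - (f u - f w) := by abel
    rw [h2]
    have h3 := norm_sub_le (f u - p) (f u - f w)
    linarith [h1.2]

end Pool.Agent.L7h79.PM
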