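import Mathlib
import Pool.Agent.L7h49.PM.Def

/-!
# Project PM, part MIN: a `K_5` model from five connected sets and ten connecting sets
-/

set_option autoImplicit false

namespace Pool.Agent.L7h79.PM

open Pool.Agent.L7h49.PM

/-- Cutting a walk at the first vertex in `T`. -/
theorem min_cut_walk {V : Type} (G : SimpleGraph V) (W T : Set V) {a t : W}
    (p : (G.induce W).Walk a t) (ht : (t : V) ∈ T) (ha : (a : V) ∉ T) :
    ∃ X : Set V, X ⊆ W ∧ Disjoint X T ∧ (a : V) ∈ X ∧ (G.induce X).Connected ∧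
      ∃ x ∈ X, ∃ y ∈ T, G.Adj x y := by
  induction p with
  | nil => exact absurd ht ha
  | @cons u v w h p ih =>
    have huv : G.Adj (u : V) (v : V) := h
    by_cases hv : (v : V) ∈ T
    · refine ⟨{(u : V)}, ?_, ?_, rfl, ?_, u, rfl, v, hv, huv⟩
      · rintro x rfl
        exact u.2
      · rw [Set.disjoint_singleton_left]
        exact ha
      · rw [SimpleGraph.connected_iff_exists_forall_reachable]
        refine ⟨⟨u, rfl⟩, ?_⟩
        rintro ⟨y, hy⟩
        have : y = u := hy
        subst this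
        exact SimpleGraph.Reachable.refl _
    · obtain ⟨X, hXW, hXT, hvX, hXc, x, hx, y, hy, hxy⟩ := ih ht hv
      refine ⟨{(u : V)} ∪ X, ?_, ?_, Or.inl rfl, ?_, x, Or.inr hx, y, hy, hxy⟩
      · apply Set.union_subset _ hXW
        rintro x rfl
        exact u.2
      · rw [Set.disjoint_union_left]
        refine ⟨?_, hXT⟩
        rw [Set.disjoint_singleton_left]
        exact ha
      · refine SimpleGraph.connected_induce_union ?_ hXc.preconnected (rfl : (u : V) ∈ ({(u : V)} : Set V))
          hvX huv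
        rintro ⟨y, hy⟩ ⟨z, hz⟩
        have h1 : y = u := hy
        have h2 : z = u := hz
        subst h1
        subst h2
        exact SimpleGraph.Reachable.refl _

theorem min_cut {V : Type} (G : SimpleGraph V) (W S T : Set V) (hW : (G.induce W).Connected)
    (hS : (W ∩ S).Nonempty) (hT : (W ∩ T).Nonempty) (hST : Disjoint S T) :
    ∃ X : Set V, X ⊆ W ∧ Disjoint X T ∧ (X ∩ S).Nonempty ∧ (G.induce X).Connected ∧
      ∃ x ∈ X, ∃ y ∈ T, G.Adj x y := by
  obtain ⟨a, haW, haS⟩ := hS
  obtain ⟨t, htW, htT⟩ := hT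
  have ha : a ∉ T := fun h => Set.disjoint_left.1 hST haS h
  obtain ⟨p⟩ := hW.preconnected ⟨a, haW⟩ ⟨t, htW⟩
  obtain ⟨X, h1, h2, h3, h4, h5⟩ := min_cut_walk G W T p htT ha
  exact ⟨X, h1, h2, ⟨a, h3, haS⟩, h4, h5⟩

theorem min_union {V : Type} (G : SimpleGraph V) (S : Set V) (ι : Type) (X : ι → Set V) (P : ι → Prop)
    (hS : (G.induce S).Connected) (hX : ∀ j, P j → (G.induce (X j)).Connected ∧ (X j ∩ S).Nonempty) :
    (G.induce (S ∪ ⋃ j, ⋃ _ : P j, X j)).Connected := by
  obtain ⟨⟨s, hs⟩⟩ := hS.nonempty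
  apply SimpleGraph.induce_connected_of_patches s (Or.inl hs)
  intro v hv
  rcases hv with hv | hv
  · exact ⟨S, Set.subset_union_left, hs, hv, hS.preconnected _ _⟩
  · simp only [Set.mem_iUnion] at hv
    obtain ⟨j, hj, hv⟩ := hv
    obtain ⟨h1, h2⟩ := hX j hj
    have h3 : (G.induce (S ∪ X j)).Connected := by
      apply SimpleGraph.induce_union_connected hS.preconnected h1.preconnected
      rw [Set.inter_comm]
      exact h2
    refine ⟨S ∪ X j, ?_, Or.inl hs, Or.inr hv, h3.preconnected _ _⟩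
    apply Set.union_subset_union_right
    intro x hx
    simp only [Set.mem_iUnion]
    exact ⟨j, hj, hx⟩

theorem s_MIN : S_MIN := by
  intro V G B W hB hBd hW hWW
  have key : ∀ i j : Fin 5, i < j → ∃ X : Set V, X ⊆ W i j ∧ Disjoint X (B j) ∧ (X ∩ B i).Nonempty ∧
      (G.induce X).Connected ∧ ∃ x ∈ X, ∃ y ∈ B j, G.Adj x y := by
    intro i j hij
    obtain ⟨h1, h2, h3, _⟩ := hW i j hij
    exact min_cut G (W i j) (B i) (B j) h1 h2 h3 (hBd i j hij.ne)
  choose! X hX using key
  refine ⟨fun i => B i ∪ ⋃ j, ⋃ _ : i < j, X i j, ?_, ?_, ?_⟩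
  · intro i
    apply min_union G (B i) (Fin 5) (fun j => X i j) (fun j => i < j) (hB i)
    intro j hij
    exact ⟨(hX i j hij).2.2.2.1, (hX i j hij).2.2.1⟩
  · intro i k hik
    rw [Set.disjoint_left]
    intro v hv hv'
    -- a vertex of `X i j` is not in `B k` for `k ≠ i`
    have hXB : ∀ i j k : Fin 5, i < j → k ≠ i → v ∈ X i j → v ∉ B k := by
      intro i j k hij hki hvX hvB
      by_cases hkj : k = j
      · subst hkj
        exact Set.disjoint_left.1 (hX i k hij).2.1 hvX hvB
      · exact Set.disjoint_left.1 ((hW i j hij).2.2.2 k hki hkj) ((hX i j hij).1 hvX) hvB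
    rcases hv with hv | hv
    · rcases hv' with hv' | hv'
      · exact Set.disjoint_left.1 (hBd i k hik) hv hv'
      · simp only [Set.mem_iUnion] at hv'
        obtain ⟨l, hl, hv'⟩ := hv'
        exact hXB k l i hl hik hv' hv
    · simp only [Set.mem_iUnion] at hv
      obtain ⟨j, hj, hv⟩ := hv
      rcases hv' with hv' | hv'
      · exact hXB i j k hj hik.symm hv hv'
      · simp only [Set.mem_iUnion] at hv'
        obtain ⟨l, hl, hv'⟩ := hv'
        have hne : (i, j) ≠ (k, l) := by
          intro h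
          exact hik (Prod.ext_iff.1 h).1
        have h1 := hWW i j k l hj hl hne ⟨(hX i j hj).1 hv, (hX k l hl).1 hv'⟩
        have h2 := hWW k l i j hl hj hne.symm ⟨(hX k l hl).1 hv', (hX i j hj).1 hv⟩
        have h3 : v ∈ B i := by
          rcases h1 with h | h
          · exact h
          · exact absurd h (hXB i j j hj hj.ne' hv)
        have h4 : v ∈ B k := by
          rcases h2 with h | h
          · exact h
          · exact absurd h (hXB k l l hl hl.ne' hv')
        exact Set.disjoint_left.1 (hBd i k hik) h3 h4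
  · have hlt : ∀ i j : Fin 5, i < j → ∃ u ∈ B i ∪ ⋃ j, ⋃ _ : i < j, X i j,
        ∃ v ∈ B j ∪ ⋃ k, ⋃ _ : j < k, X j k, G.Adj u v := by
      intro i j hij
      obtain ⟨x, hx, y, hy, hxy⟩ := (hX i j hij).2.2.2.2
      refine ⟨x, Or.inr ?_, y, Or.inl hy, hxy⟩
      simp only [Set.mem_iUnion]
      exact ⟨j, hij, hx⟩
    intro i j hij
    rcases lt_or_gt_of_ne hij with h | h
    · exact hlt i j h
    · obtain ⟨u, hu, v, hv, huv⟩ := hlt j i h
      exact ⟨v, hv, u, hu, huv.symm⟩

end Pool.Agent.L7h79.PM
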