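import Mathlib
import Pool.Agent.L7h49.PM.Def

/-!
# Project PM, part REG: the thin ellipse
-/

set_option autoImplicit false

namespace Pool.Agent.L7h79.PM

open Pool.Agent.L7h49.PM

/-- Real core: `u + v = (E, F)`, `|F| ≤ E / 3`, `|u| + |v| ≤ |u + v| + 3C` gives
`u_x ≥ (3/5)|u| - 6C`. -/
theorem reg_core (u0 u1 v0 v1 ρ σ D C : ℝ) (hC : 0 ≤ C) (hρ : 0 ≤ ρ) (hσ : 0 ≤ σ) (hD : 0 ≤ D)
    (hρ2 : ρ ^ 2 = u0 ^ 2 + u1 ^ 2) (hσ2 : σ ^ 2 = v0 ^ 2 + v1 ^ 2)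
    (hD2 : D ^ 2 = (u0 + v0) ^ 2 + (u1 + v1) ^ 2) (hE : 0 < u0 + v0)
    (hF : |u1 + v1| ≤ (u0 + v0) / 3) (h : ρ + σ ≤ D + 3 * C) :
    3 / 5 * ρ - 6 * C ≤ u0 := by
  set E := u0 + v0 with hEdef
  set F := u1 + v1 with hFdef
  have hED : E ≤ D := by
    apply le_of_sq_le_sq _ hD
    nlinarith [sq_nonneg F]
  have hF2 : F ^ 2 ≤ E ^ 2 / 9 := by
    have := sq_le_sq' (by linarith [abs_nonneg F, neg_abs_le F]) hF
    rw [sq_abs] at this
    nlinarith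
  have hDE : D ≤ 11 / 10 * E := by
    apply le_of_sq_le_sq _ (by positivity)
    nlinarith
  -- Cauchy-Schwarz
  have hcs : v0 * E + v1 * F ≤ σ * D := by
    apply le_of_sq_le_sq _ (by positivity)
    have : (σ * D) ^ 2 = (v0 ^ 2 + v1 ^ 2) * (E ^ 2 + F ^ 2) := by rw [mul_pow, hσ2, hD2]
    rw [this]
    nlinarith [sq_nonneg (v0 * F - v1 * E)]
  have hu1 : |u1| ≤ ρ := by
    apply abs_le_of_sq_le_sq _ hρ
    nlinarith [sq_nonneg u0]
  have huF : u1 * F ≤ ρ * (E / 3) := by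
    calc u1 * F ≤ |u1 * F| := le_abs_self _
      _ = |u1| * |F| := abs_mul _ _
      _ ≤ ρ * (E / 3) := mul_le_mul hu1 hF (abs_nonneg _) hρ
  have hsum : u0 * E + u1 * F + (v0 * E + v1 * F) = D ^ 2 := by
    rw [hD2, hEdef, hFdef]; ring
  have h1 : D * (ρ - 3 * C) ≤ u0 * E + ρ * (E / 3) := by nlinarith
  have h2 : E * ρ ≤ D * ρ := mul_le_mul_of_nonneg_right hED hρ
  have h3 : D * C ≤ 11 / 10 * E * C := mul_le_mul_of_nonneg_right hDE hC
  have h4 : E * (3 / 5 * ρ - 6 * C) ≤ E * u0 := by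
    have h5 : 0 ≤ E * ρ := by positivity
    have h6 : 0 ≤ E * C := by positivity
    nlinarith
  exact le_of_mul_le_mul_left h4 hE

theorem reg_sq (p : E2) : ‖p‖ ^ 2 = p 0 ^ 2 + p 1 ^ 2 := by
  rw [EuclideanSpace.norm_eq, Real.sq_sqrt (by positivity)]
  simp [Fin.sum_univ_two]

theorem reg_coord (p : E2) (C : ℝ) (h : ‖p‖ ≤ C) : |p 0| ≤ C ∧ |p 1| ≤ C := by
  have h2 := reg_sq p
  have h0 : 0 ≤ ‖p‖ := norm_nonneg p
  constructor
  · refine (abs_le_of_sq_le_sq ?_ h0).trans h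
    nlinarith [sq_nonneg (p 1)]
  · refine (abs_le_of_sq_le_sq ?_ h0).trans h
    nlinarith [sq_nonneg (p 0)]

theorem s_REG : S_REG := by
  intro L C y t a c w hC hL hy ht ha hc hw
  have ha' := reg_coord _ _ ha
  have hc' := reg_coord _ _ hc
  simp only [pt, PiLp.sub_apply, Matrix.cons_val_zero, Matrix.cons_val_one] at ha' hc'
  obtain ⟨ha0, ha1⟩ := ha'
  obtain ⟨hc0, hc1⟩ := hc'
  rw [abs_le] at ha0 ha1 hc0 hc1 hy ht
  have hρ := norm_nonneg (w - a)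
  have hσ := norm_nonneg (w - c)
  have hD := norm_nonneg (a - c)
  have hρ2 := reg_sq (w - a)
  have hσ2 := reg_sq (w - c)
  have hD2 := reg_sq (a - c)
  simp only [PiLp.sub_apply] at hρ2 hσ2 hD2
  set ρ := ‖w - a‖ with hρd
  set σ := ‖w - c‖ with hσd
  set D := ‖a - c‖ with hDd
  have hFabs : |c 1 - a 1| ≤ (c 0 - a 0) / 3 := by
    rw [abs_le]; constructor <;> linarith
  have k1 : 3 / 5 * ρ - 6 * C ≤ w 0 - a 0 := by
    apply reg_core (w 0 - a 0) (w 1 - a 1) (c 0 - w 0) (c 1 - w 1) ρ σ D C (by linarith) hρ hσ hD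
      hρ2 (by rw [hσ2]; ring) (by rw [hD2]; ring) (by linarith) _ hw
    have e1 : w 1 - a 1 + (c 1 - w 1) = c 1 - a 1 := by ring
    have e2 : w 0 - a 0 + (c 0 - w 0) = c 0 - a 0 := by ring
    rw [e1, e2]; exact hFabs
  have k2 : 3 / 5 * σ - 6 * C ≤ c 0 - w 0 := by
    apply reg_core (c 0 - w 0) (c 1 - w 1) (w 0 - a 0) (w 1 - a 1) σ ρ D C (by linarith) hσ hρ hD
      (by rw [hσ2]; ring) hρ2 (by rw [hD2]; ring) (by linarith) _ (by linarith)
    have e1 : c 1 - w 1 + (w 1 - a 1) = c 1 - a 1 := by ring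
    have e2 : c 0 - w 0 + (w 0 - a 0) = c 0 - a 0 := by ring
    rw [e1, e2]; exact hFabs
  have hwa : |w 1 - a 1| ≤ ρ := by
    apply abs_le_of_sq_le_sq _ hρ
    nlinarith [sq_nonneg (w 0 - a 0)]
  have hwc : |w 1 - c 1| ≤ σ := by
    apply abs_le_of_sq_le_sq _ hσ
    nlinarith [sq_nonneg (w 0 - c 0)]
  rw [abs_le] at hwa hwc
  have hDle : D ≤ (L + 2 * C) + (L / 4 + 2 * C) := by
    apply le_of_sq_le_sq _ (by linarith)
    have h1 : (a 0 - c 0) ^ 2 ≤ (L + 2 * C) ^ 2 := by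
      apply sq_le_sq'
      · linarith
      · linarith
    have h2 : (a 1 - c 1) ^ 2 ≤ (L / 4 + 2 * C) ^ 2 := by
      apply sq_le_sq'
      · linarith
      · linarith
    have h3 : 0 ≤ (L + 2 * C) * (L / 4 + 2 * C) := mul_nonneg (by linarith) (by linarith)
    nlinarith
  have hmin : ρ ≤ 5 / 8 * L + 7 / 2 * C ∨ σ ≤ 5 / 8 * L + 7 / 2 * C := by
    by_contra hcon
    push Not at hcon
    linarith [hcon.1, hcon.2]
  have hY : -(4 / 5 * L) ≤ w 1 ∧ w 1 ≤ 4 / 5 * L := by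
    rcases hmin with h | h
    · constructor <;> linarith
    · constructor <;> linarith
  refine ⟨by linarith, by linarith, hY.1, hY.2, ?_, ?_, ?_, ?_⟩
  · intro hX
    refine ⟨by linarith, by linarith, by linarith, by linarith⟩
  · intro hX
    refine ⟨by linarith, by linarith⟩
  · intro hX
    refine ⟨by linarith, by linarith, by linarith, by linarith⟩
  · intro hX
    refine ⟨by linarith, by linarith⟩

end Pool.Agent.L7h79.PM
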