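import Mathlib
import Pool.Agent.L7h49.PM.Def3

/-!
# Project PM, part INF: an infinite complete minor
-/

set_option autoImplicit false

namespace Pool.Agent.L7h79.PM

open Pool.Agent.L7h49.PM

/-- A state with `t` tracks, all joined to each other. -/
structure FullSt {V : Type} (G : SimpleGraph V) (f : V → E2) (C : ℝ) (t : ℕ) where
  X : ℝ
  eta : Fin t → ℝ
  B : Fin t → Set V
  st : St G f C X eta B
  joined : ∀ i j, i ≠ j → ∃ u ∈ B i, ∃ v ∈ B j, G.Adj u v

theorem fullSt_step (h1 : S_ADD) (h2 : S_ALLP) {V : Type} (G : SimpleGraph V) (f : V → E2) (C : ℝ)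
    (hR : Rough G f C) (t : ℕ) (s : FullSt G f C t) :
    ∃ s' : FullSt G f C (t + 1), ∀ k : Fin t, s.B k ⊆ s'.B k.castSucc := by
  obtain ⟨eta1, B1, hst1, hB1⟩ := h1 V G f C hR t s.X s.eta s.B s.st
  obtain ⟨X2, eta2, B2, hB2, hst2, hj2⟩ := h2 V G f C hR (t + 1) s.X eta1 B1 hst1
  exact ⟨⟨X2, eta2, B2, hst2, hj2⟩, fun k => (hB1 k).trans (hB2 _)⟩

/-- the empty state -/
def emptySt {V : Type} (G : SimpleGraph V) (f : V → E2) (C : ℝ) : FullSt G f C 0 where
  X := 0
  eta := fun k => k.elim0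
  B := fun k => k.elim0
  st :=
    { conn := fun k => k.elim0
      disj := fun k => k.elim0
      sep := fun k => k.elim0
      right := fun k => k.elim0
      endp := fun k => k.elim0 }
  joined := fun i => i.elim0

/-- An increasing union of connected sets is connected. -/
theorem conn_mono_union {V : Type} (G : SimpleGraph V) (A : ℕ → Set V) (hA : ∀ n, (G.induce (A n)).Connected)
    (hm : ∀ n, A n ⊆ A (n + 1)) : (G.induce (⋃ n, A n)).Connected := by
  have hmono : Monotone A := monotone_nat_of_le_succ hm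
  obtain ⟨⟨x, hx⟩⟩ := (hA 0).nonempty
  apply SimpleGraph.induce_connected_of_patches x (Set.mem_iUnion.2 ⟨0, hx⟩)
  intro v hv
  obtain ⟨n, hn⟩ := Set.mem_iUnion.1 hv
  exact ⟨A n, Set.subset_iUnion A n, hmono (Nat.zero_le n) hx, hn, (hA n).preconnected _ _⟩

theorem s_INF (h1 : S_ADD) (h2 : S_ALLP) : S_INF := by
  intro V G f C hR
  classical
  let nxt : ∀ t, FullSt G f C t → FullSt G f C (t + 1) := fun t s =>
    (fullSt_step h1 h2 G f C hR t s).choose
  have hnxt : ∀ t (s : FullSt G f C t) (k : Fin t), s.B k ⊆ (nxt t s).B k.castSucc := fun t s =>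
    (fullSt_step h1 h2 G f C hR t s).choose_spec
  let seq : ∀ t, FullSt G f C t := fun t => Nat.rec (emptySt G f C) nxt t
  have hseq : ∀ t, seq (t + 1) = nxt t (seq t) := fun t => rfl
  -- the tracks with natural numbers as indices
  let D : ℕ → ℕ → Set V := fun n k => if h : k < n then (seq n).B ⟨k, h⟩ else ∅
  have hD : ∀ n k (h : k < n), D n k = (seq n).B ⟨k, h⟩ := fun n k h => dif_pos h
  have hstep : ∀ n k, k < n → D n k ⊆ D (n + 1) k := by
    intro n k h
    rw [hD n k h, hD (n + 1) k (h.trans (Nat.lt_succ_self n)), hseq]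
    exact hnxt n (seq n) ⟨k, h⟩
  have hmono : ∀ k n m, k < n → n ≤ m → D n k ⊆ D m k := by
    intro k n m hk hnm
    induction m, hnm using Nat.le_induction with
    | base => exact subset_rfl
    | succ m hm ih => exact ih.trans (hstep m k (lt_of_lt_of_le hk hm))
  refine ⟨fun k => ⋃ n, D (k + 1 + n) k, ?_, ?_, ?_⟩
  · intro k
    apply conn_mono_union
    · intro n
      rw [hD _ _ (by omega)]
      exact (seq (k + 1 + n)).st.conn _
    · intro n
      exact hstep _ _ (by omega)
  · intro i j hij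
    rw [Set.disjoint_left]
    intro v hi hj
    obtain ⟨n, hn⟩ := Set.mem_iUnion.1 hi
    obtain ⟨m, hm⟩ := Set.mem_iUnion.1 hj
    have hn' := hmono i (i + 1 + n) (i + 1 + n + (j + 1 + m)) (by omega) (by omega) hn
    have hm' := hmono j (j + 1 + m) (i + 1 + n + (j + 1 + m)) (by omega) (by omega) hm
    rw [hD _ _ (by omega)] at hn' hm'
    refine Set.disjoint_left.1 ((seq (i + 1 + n + (j + 1 + m))).st.disj _ _ ?_) hn' hm'
    intro h
    exact hij (Fin.mk.inj_iff.1 h)
  · intro i j hij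
    have hi : i < i + j + 1 := by omega
    have hj : j < i + j + 1 := by omega
    obtain ⟨u, hu, v, hv, huv⟩ := (seq (i + j + 1)).joined ⟨i, hi⟩ ⟨j, hj⟩
      (fun h => hij (Fin.mk.inj_iff.1 h))
    refine ⟨u, ?_, v, ?_, huv⟩
    · rw [Set.mem_iUnion]
      refine ⟨j, ?_⟩
      have e : i + 1 + j = i + j + 1 := by omega
      rw [e, hD _ _ hi]
      exact hu
    · rw [Set.mem_iUnion]
      refine ⟨i, ?_⟩
      have e : j + 1 + i = i + j + 1 := by omega
      rw [e, hD _ _ hj]
      exact hv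

end Pool.Agent.L7h79.PM
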