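import Pool.Agent.L7h49.PM.Def5

/-! Project PM (helper49, MP_8ede36_co), quantitative form for `K_t`: part NEIGHB, any two tracks can be
joined by an edge, with bounds (adaptation of L7h60/PM/Neigh.lean). -/

set_option autoImplicit false

namespace Pool.Agent.L7h79.PM

open Pool.Agent.L7h49.PM

theorem s_NEIGHB (h1 : S_SWAPB) (h2 : S_HOOKB) : S_NEIGHB := by
  intro V G f C D hR t X M L eta B i j hSt hij hXM hetaM hL1 hL2 hD
  have hC := hR.one
  have ht0 : (0:ℝ) ≤ (t:ℝ) := Nat.cast_nonneg t
  have hCL : 100 * C ≤ L := by nlinarith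
  have hL0 : 0 ≤ L := by linarith
  have hne : ∀ {X : ℝ} {eta : Fin t → ℝ} {B : Fin t → Set V}, St G f C X eta B →
      ∀ k l, k ≠ l → eta k ≠ eta l := by
    intro X eta B h k l hkl heq
    have h3 := h.sep k l hkl
    rw [heq, sub_self, abs_zero] at h3
    linarith
  have main : ∀ (n : ℕ) (i j : Fin t) (X M : ℝ) (eta : Fin t → ℝ) (B : Fin t → Set V),
      St G f C X eta B → |X| ≤ M → (∀ k, |eta k| ≤ M) → 6 * (M + 2 * (n + 1) * L) + 20 * L ≤ D →
      eta i < eta j →
      (Finset.univ.filter (fun l => eta i < eta l ∧ eta l < eta j)).card = n →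
      ∃ (X' : ℝ) (eta' : Fin t → ℝ) (B' : Fin t → Set V), (∀ k, B k ⊆ B' k) ∧
        St G f C X' eta' B' ∧ (∃ u ∈ B' i, ∃ v ∈ B' j, G.Adj u v) ∧
        |X'| ≤ M + 2 * (n + 1) * L ∧ ∀ k, |eta' k| ≤ M + 2 * (n + 1) * L := by
    intro n
    induction n using Nat.strong_induction_on with
    | _ n ih =>
    intro i j X M eta B hSt hX hE hDn hlt hcard
    have hM0 : 0 ≤ M := (abs_nonneg X).trans hX
    have hn0 : (0:ℝ) ≤ (n:ℝ) := Nat.cast_nonneg n
    have hnL : 0 ≤ (n:ℝ) * L := mul_nonneg hn0 hL0
    by_cases hemp : (Finset.univ.filter (fun l => eta i < eta l ∧ eta l < eta j)).Nonempty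
    · obtain ⟨k, hk, hmin⟩ := Finset.exists_min_image _ eta hemp
      rw [Finset.mem_filter] at hk
      obtain ⟨-, hik, hkj⟩ := hk
      have hkin : k ∈ Finset.univ.filter (fun l => eta i < eta l ∧ eta l < eta j) :=
        Finset.mem_filter.2 ⟨Finset.mem_univ _, hik, hkj⟩
      have hnb : ∀ l, l ≠ i → l ≠ k → eta l < eta i ∨ eta k < eta l := by
        intro l hli hlk
        rcases lt_or_gt_of_ne (hne hSt l i hli) with h | h
        · exact Or.inl h
        · right
          rcases lt_or_gt_of_ne (hne hSt l k hlk) with h' | h'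
          · have h3 := hmin l (Finset.mem_filter.2 ⟨Finset.mem_univ _, h, h'.trans hkj⟩)
            exact absurd h3 (not_le.2 h')
          · exact h'
      obtain ⟨X', eta', B', hB, hSt', hki', hlow, hhigh, hord, hX', hE'⟩ :=
        h1 V G f C D hR t X M L eta B i k hSt hX hE hL1 hL2 (by nlinarith) hik hnb
      have hji : j ≠ i := by rintro rfl; exact lt_irrefl _ hlt
      have hjk : j ≠ k := by rintro rfl; exact lt_irrefl _ hkj
      have hij' : eta' i < eta' j := hhigh j hji hjk hkj
      have hsub : Finset.univ.filter (fun l => eta' i < eta' l ∧ eta' l < eta' j) ⊆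
          (Finset.univ.filter (fun l => eta i < eta l ∧ eta l < eta j)).erase k := by
        intro l hl
        rw [Finset.mem_filter] at hl
        obtain ⟨-, h3, h4⟩ := hl
        have hlk : l ≠ k := by rintro rfl; exact absurd (h3.trans hki') (lt_irrefl _)
        have hli : l ≠ i := by rintro rfl; exact lt_irrefl _ h3
        have hlj : l ≠ j := by rintro rfl; exact lt_irrefl _ h4
        rw [Finset.mem_erase, Finset.mem_filter]
        refine ⟨hlk, Finset.mem_univ _, ?_, ?_⟩
        · rcases lt_or_gt_of_ne (hne hSt l i hli) with h | h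
          · have h5 := hlow l hli hlk h
            exact absurd (h3.trans (h5.trans hki')) (lt_irrefl _)
          · exact h
        · rcases lt_or_gt_of_ne (hne hSt l j hlj) with h | h
          · exact h
          · have h5 := hord j l hji hjk hli hlk h
            exact absurd (h4.trans h5) (lt_irrefl _)
      have hcard' : (Finset.univ.filter (fun l => eta' i < eta' l ∧ eta' l < eta' j)).card < n := by
        refine lt_of_le_of_lt (Finset.card_le_card hsub) ?_
        rw [← hcard]
        exact Finset.card_erase_lt_of_mem hkin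
      have hcr : ((Finset.univ.filter (fun l => eta' i < eta' l ∧ eta' l < eta' j)).card : ℝ) + 1
          ≤ (n : ℝ) := by exact_mod_cast hcard'
      have hb : M + 2 * L + 2 * (((Finset.univ.filter
          (fun l => eta' i < eta' l ∧ eta' l < eta' j)).card : ℝ) + 1) * L ≤
            M + 2 * (n + 1) * L := by
        have h6 := mul_le_mul_of_nonneg_right hcr hL0
        nlinarith
      obtain ⟨X'', eta'', B'', hB', hSt'', hadj, hX2, hE2⟩ :=
        ih _ hcard' i j X' (M + 2 * L) eta' B' hSt' hX' hE' (by linarith) hij' rfl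
      exact ⟨X'', eta'', B'', fun m => (hB m).trans (hB' m), hSt'', hadj, hX2.trans hb,
        fun m => (hE2 m).trans hb⟩
    · have hnb : ∀ l, l ≠ i → l ≠ j → eta l < eta i ∨ eta j < eta l := by
        intro l hli hlj
        rcases lt_or_gt_of_ne (hne hSt l i hli) with h | h
        · exact Or.inl h
        · right
          rcases lt_or_gt_of_ne (hne hSt l j hlj) with h' | h'
          · exact absurd ⟨l, Finset.mem_filter.2 ⟨Finset.mem_univ _, h, h'⟩⟩ hemp
          · exact h'
      obtain ⟨B', hB, hSt', hadj⟩ := h2 V G f C D hR t X eta B i j hSt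
        (fun k => by have := hE k; nlinarith) hlt hnb
      refine ⟨_, eta, B', hB, hSt', hadj, ?_, fun k => ?_⟩
      · have h5 := abs_add_le X (100 * C)
        rw [abs_of_nonneg (by linarith : (0:ℝ) ≤ 100 * C)] at h5
        nlinarith
      · have := hE k
        nlinarith
  have hct : ∀ p q : Fin t,
      ((Finset.univ.filter (fun l => eta p < eta l ∧ eta l < eta q)).card : ℝ) ≤ (t : ℝ) := by
    intro p q
    have h := Finset.card_le_univ (Finset.univ.filter (fun l => eta p < eta l ∧ eta l < eta q))
    rw [Fintype.card_fin] at h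
    exact_mod_cast h
  have hbb : ∀ p q : Fin t, M + 2 * (((Finset.univ.filter
      (fun l => eta p < eta l ∧ eta l < eta q)).card : ℝ) + 1) * L ≤ M + 2 * (t + 1) * L := by
    intro p q
    have h6 := mul_le_mul_of_nonneg_right (hct p q) hL0
    nlinarith
  rcases lt_or_gt_of_ne (hne hSt i j hij) with h | h
  · obtain ⟨X', eta', B', hB, hSt', hadj, hX', hE'⟩ :=
      main _ i j X M eta B hSt hXM hetaM (by have := hbb i j; linarith) h rfl
    exact ⟨X', eta', B', hB, hSt', hadj, hX'.trans (hbb i j), fun m => (hE' m).trans (hbb i j)⟩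
  · obtain ⟨X', eta', B', hB, hSt', ⟨u, hu, v, hv, huv⟩, hX', hE'⟩ :=
      main _ j i X M eta B hSt hXM hetaM (by have := hbb j i; linarith) h rfl
    exact ⟨X', eta', B', hB, hSt', ⟨v, hv, u, hu, huv.symm⟩, hX'.trans (hbb j i),
      fun m => (hE' m).trans (hbb j i)⟩

end Pool.Agent.L7h79.PM
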