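import Mathlib
import Pool.Agent.L7h49.PM.Def

/-!
# Project PM, part PLB: the connections meet only near their common ends
-/

set_option autoImplicit false
set_option linter.unnecessarySeqFocus false
set_option linter.unusedTactic false

namespace Pool.Agent.L7h79.PM

open Pool.Agent.L7h49.PM

/-- A box, written out. -/
def Bx (x1 x2 y1 y2 X Y : ℝ) : Prop := x1 ≤ X ∧ X ≤ x2 ∧ y1 ≤ Y ∧ Y ≤ y2

/-- A box open on the left and on the right. -/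
def Ox (x1 x2 y1 y2 X Y : ℝ) : Prop := x1 < X ∧ X < x2 ∧ y1 ≤ Y ∧ Y ≤ y2

/-- Where a geodesic can be, as a union of three boxes. -/
theorem reg_split {L C y t X Y : ℝ} (h : Reg L C y t X Y) :
    Bx (-(30 * C)) (6 * C) (y - 30 * C) (y + 30 * C) X Y ∨
    Ox (6 * C) (L - 6 * C) (-(4 / 5 * L)) (4 / 5 * L) X Y ∨
    Bx (L - 6 * C) (L + 30 * C) (t - 30 * C) (t + 30 * C) X Y := by
  obtain ⟨h1, h2, h3, h4, h5, h6, h7, h8⟩ := h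
  rcases le_or_gt X (6 * C) with h | h
  · left
    obtain ⟨a, b, c, d⟩ := h5 h
    exact ⟨by linarith, h, by linarith, by linarith⟩
  · rcases le_or_gt (L - 6 * C) X with h' | h'
    · right; right
      obtain ⟨a, b, c, d⟩ := h7 h'
      exact ⟨h', by linarith, by linarith, by linarith⟩
    · right; left
      exact ⟨h, h', h3, h4⟩

theorem nf_01 {L C y0 y1 t0 t1 X Y : ℝ}
    (h : crW L C y0 y1 t0 t1 (6 * C) 0 1 X Y) :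
    Bx (-(6 * C)) (6 * C) (y0 - 6 * C) (y1 + 6 * C) X Y := by
  have h' : bx (6 * C) 0 0 y0 y1 X Y := h
  obtain ⟨a, b, c, d⟩ := h'
  exact ⟨by linarith, by linarith, by linarith, by linarith⟩

theorem nf_02 {L C y0 y1 t0 t1 X Y : ℝ}
    (h : crW L C y0 y1 t0 t1 (6 * C) 0 2 X Y) :
    Bx (-(30 * C)) (6 * C) (y0 - 30 * C) (y0 + 30 * C) X Y ∨
    Ox (6 * C) (L - 6 * C) (-(4 / 5 * L)) (4 / 5 * L) X Y ∨
    Bx (L - 6 * C) (L + 30 * C) (t1 - 30 * C) (t1 + 30 * C) X Y := by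
  exact reg_split (show Reg L C y0 t1 X Y from h)

theorem nf_03 {L C y0 y1 t0 t1 X Y : ℝ}
    (h : crW L C y0 y1 t0 t1 (6 * C) 0 3 X Y) :
    Bx (-(6 * C)) (6 * C) (-L - 6 * C) (y0 + 6 * C) X Y ∨
    Bx (-(6 * C)) (L + 6 * C) (-L - 6 * C) (-L + 6 * C) X Y ∨
    Bx (L - 6 * C) (L + 6 * C) (-L - 6 * C) (t0 + 6 * C) X Y := by
  have h' : bx (6 * C) 0 0 (-L) y0 X Y ∨
      bx (6 * C) 0 L (-L) (-L) X Y ∨
      bx (6 * C) L L (-L) t0 X Y := h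
  rcases h' with ⟨a, b, c, d⟩ | ⟨a, b, c, d⟩ | ⟨a, b, c, d⟩
  · exact Or.inl ⟨by linarith, by linarith, by linarith, by linarith⟩
  · exact Or.inr (Or.inl ⟨by linarith, by linarith, by linarith, by linarith⟩)
  · exact Or.inr (Or.inr ⟨by linarith, by linarith, by linarith, by linarith⟩)

theorem nf_04 {L C y0 y1 t0 t1 X Y : ℝ}
    (h : crW L C y0 y1 t0 t1 (6 * C) 0 4 X Y) :
    Bx (-L - 6 * C) (6 * C) (y0 - 6 * C) (y0 + 6 * C) X Y := by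
  have h' : bx (6 * C) (-L) 0 y0 y0 X Y := h
  obtain ⟨a, b, c, d⟩ := h'
  exact ⟨by linarith, by linarith, by linarith, by linarith⟩

theorem nf_12 {L C y0 y1 t0 t1 X Y : ℝ}
    (h : crW L C y0 y1 t0 t1 (6 * C) 1 2 X Y) :
    Bx (-(6 * C)) (6 * C) (y1 - 6 * C) (L + 6 * C) X Y ∨
    Bx (-(6 * C)) (L + 6 * C) (L - 6 * C) (L + 6 * C) X Y ∨
    Bx (L - 6 * C) (L + 6 * C) (t1 - 6 * C) (L + 6 * C) X Y := by
  have h' : bx (6 * C) 0 0 y1 L X Y ∨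
      bx (6 * C) 0 L L L X Y ∨
      bx (6 * C) L L t1 L X Y := h
  rcases h' with ⟨a, b, c, d⟩ | ⟨a, b, c, d⟩ | ⟨a, b, c, d⟩
  · exact Or.inl ⟨by linarith, by linarith, by linarith, by linarith⟩
  · exact Or.inr (Or.inl ⟨by linarith, by linarith, by linarith, by linarith⟩)
  · exact Or.inr (Or.inr ⟨by linarith, by linarith, by linarith, by linarith⟩)

theorem nf_13 {L C y0 y1 t0 t1 X Y : ℝ}
    (h : crW L C y0 y1 t0 t1 (6 * C) 1 3 X Y) :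
    Bx (-(30 * C)) (6 * C) (y1 - 30 * C) (y1 + 30 * C) X Y ∨
    Ox (6 * C) (L - 6 * C) (-(4 / 5 * L)) (4 / 5 * L) X Y ∨
    Bx (L - 6 * C) (L + 30 * C) (t0 - 30 * C) (t0 + 30 * C) X Y := by
  exact reg_split (show Reg L C y1 t0 X Y from h)

theorem nf_14 {L C y0 y1 t0 t1 X Y : ℝ}
    (h : crW L C y0 y1 t0 t1 (6 * C) 1 4 X Y) :
    Bx (-L - 6 * C) (6 * C) (y1 - 6 * C) (y1 + 6 * C) X Y := by
  have h' : bx (6 * C) (-L) 0 y1 y1 X Y := h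
  obtain ⟨a, b, c, d⟩ := h'
  exact ⟨by linarith, by linarith, by linarith, by linarith⟩

theorem nf_23 {L C y0 y1 t0 t1 X Y : ℝ}
    (h : crW L C y0 y1 t0 t1 (6 * C) 2 3 X Y) :
    Bx (L - 6 * C) (L + 6 * C) (t0 - 6 * C) (t1 + 6 * C) X Y := by
  have h' : bx (6 * C) L L t0 t1 X Y := h
  obtain ⟨a, b, c, d⟩ := h'
  exact ⟨by linarith, by linarith, by linarith, by linarith⟩

theorem nf_24 {L C y0 y1 t0 t1 X Y : ℝ}
    (h : crW L C y0 y1 t0 t1 (6 * C) 2 4 X Y) :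
    Bx (L - 6 * C) (2 * L + 6 * C) (t1 - 6 * C) (t1 + 6 * C) X Y := by
  have h' : bx (6 * C) L (2 * L) t1 t1 X Y := h
  obtain ⟨a, b, c, d⟩ := h'
  exact ⟨by linarith, by linarith, by linarith, by linarith⟩

theorem nf_34 {L C y0 y1 t0 t1 X Y : ℝ}
    (h : crW L C y0 y1 t0 t1 (6 * C) 3 4 X Y) :
    Bx (L - 6 * C) (2 * L + 6 * C) (t0 - 6 * C) (t0 + 6 * C) X Y := by
  have h' : bx (6 * C) L (2 * L) t0 t0 X Y := h
  obtain ⟨a, b, c, d⟩ := h'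
  exact ⟨by linarith, by linarith, by linarith, by linarith⟩

theorem p_01_02 {L C y0 y1 t0 t1 X Y : ℝ} (hG : Good L C y0 y1 t0 t1)
    (hA : crW L C y0 y1 t0 t1 (6 * C) 0 1 X Y)
    (hB : crW L C y0 y1 t0 t1 (6 * C) 0 2 X Y) : cr L C y0 y1 t0 t1 0 0 X Y := by
  obtain ⟨g1, g2, g3, g4, g5, g6, g7, g8⟩ := hG
  have hA' := nf_01 hA
  have hB' := nf_02 hB
  clear hA hB
  change bx (30 * C + 0) 0 0 y0 y0 X Y
  rcases hA' with ⟨a1, a2, a3, a4⟩ <;> rcases hB' with ⟨b1, b2, b3, b4⟩ | ⟨b1, b2, b3, b4⟩ | ⟨b1, b2, b3, b4⟩ <;>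
    first
      | (exfalso; linarith)
      | exact ⟨by linarith, by linarith, by linarith, by linarith⟩

theorem p_01_03 {L C y0 y1 t0 t1 X Y : ℝ} (hG : Good L C y0 y1 t0 t1)
    (hA : crW L C y0 y1 t0 t1 (6 * C) 0 1 X Y)
    (hB : crW L C y0 y1 t0 t1 (6 * C) 0 3 X Y) : cr L C y0 y1 t0 t1 0 0 X Y := by
  obtain ⟨g1, g2, g3, g4, g5, g6, g7, g8⟩ := hG
  have hA' := nf_01 hA
  have hB' := nf_03 hB
  clear hA hB
  change bx (30 * C + 0) 0 0 y0 y0 X Y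
  rcases hA' with ⟨a1, a2, a3, a4⟩ <;> rcases hB' with ⟨b1, b2, b3, b4⟩ | ⟨b1, b2, b3, b4⟩ | ⟨b1, b2, b3, b4⟩ <;>
    first
      | (exfalso; linarith)
      | exact ⟨by linarith, by linarith, by linarith, by linarith⟩

theorem p_01_04 {L C y0 y1 t0 t1 X Y : ℝ} (hG : Good L C y0 y1 t0 t1)
    (hA : crW L C y0 y1 t0 t1 (6 * C) 0 1 X Y)
    (hB : crW L C y0 y1 t0 t1 (6 * C) 0 4 X Y) : cr L C y0 y1 t0 t1 0 0 X Y := by
  obtain ⟨g1, g2, g3, g4, g5, g6, g7, g8⟩ := hG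
  have hA' := nf_01 hA
  have hB' := nf_04 hB
  clear hA hB
  change bx (30 * C + 0) 0 0 y0 y0 X Y
  rcases hA' with ⟨a1, a2, a3, a4⟩ <;> rcases hB' with ⟨b1, b2, b3, b4⟩ <;>
    first
      | (exfalso; linarith)
      | exact ⟨by linarith, by linarith, by linarith, by linarith⟩

theorem p_01_12 {L C y0 y1 t0 t1 X Y : ℝ} (hG : Good L C y0 y1 t0 t1)
    (hA : crW L C y0 y1 t0 t1 (6 * C) 0 1 X Y)
    (hB : crW L C y0 y1 t0 t1 (6 * C) 1 2 X Y) : cr L C y0 y1 t0 t1 0 1 X Y := by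
  obtain ⟨g1, g2, g3, g4, g5, g6, g7, g8⟩ := hG
  have hA' := nf_01 hA
  have hB' := nf_12 hB
  clear hA hB
  change bx (30 * C + 0) 0 0 y1 y1 X Y
  rcases hA' with ⟨a1, a2, a3, a4⟩ <;> rcases hB' with ⟨b1, b2, b3, b4⟩ | ⟨b1, b2, b3, b4⟩ | ⟨b1, b2, b3, b4⟩ <;>
    first
      | (exfalso; linarith)
      | exact ⟨by linarith, by linarith, by linarith, by linarith⟩

theorem p_01_13 {L C y0 y1 t0 t1 X Y : ℝ} (hG : Good L C y0 y1 t0 t1)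
    (hA : crW L C y0 y1 t0 t1 (6 * C) 0 1 X Y)
    (hB : crW L C y0 y1 t0 t1 (6 * C) 1 3 X Y) : cr L C y0 y1 t0 t1 0 1 X Y := by
  obtain ⟨g1, g2, g3, g4, g5, g6, g7, g8⟩ := hG
  have hA' := nf_01 hA
  have hB' := nf_13 hB
  clear hA hB
  change bx (30 * C + 0) 0 0 y1 y1 X Y
  rcases hA' with ⟨a1, a2, a3, a4⟩ <;> rcases hB' with ⟨b1, b2, b3, b4⟩ | ⟨b1, b2, b3, b4⟩ | ⟨b1, b2, b3, b4⟩ <;>
    first
      | (exfalso; linarith)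
      | exact ⟨by linarith, by linarith, by linarith, by linarith⟩

theorem p_01_14 {L C y0 y1 t0 t1 X Y : ℝ} (hG : Good L C y0 y1 t0 t1)
    (hA : crW L C y0 y1 t0 t1 (6 * C) 0 1 X Y)
    (hB : crW L C y0 y1 t0 t1 (6 * C) 1 4 X Y) : cr L C y0 y1 t0 t1 0 1 X Y := by
  obtain ⟨g1, g2, g3, g4, g5, g6, g7, g8⟩ := hG
  have hA' := nf_01 hA
  have hB' := nf_14 hB
  clear hA hB
  change bx (30 * C + 0) 0 0 y1 y1 X Y
  rcases hA' with ⟨a1, a2, a3, a4⟩ <;> rcases hB' with ⟨b1, b2, b3, b4⟩ <;>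
    first
      | (exfalso; linarith)
      | exact ⟨by linarith, by linarith, by linarith, by linarith⟩

theorem p_01_23 {L C y0 y1 t0 t1 X Y : ℝ} (hG : Good L C y0 y1 t0 t1)
    (hA : crW L C y0 y1 t0 t1 (6 * C) 0 1 X Y)
    (hB : crW L C y0 y1 t0 t1 (6 * C) 2 3 X Y) : False := by
  obtain ⟨g1, g2, g3, g4, g5, g6, g7, g8⟩ := hG
  have hA' := nf_01 hA
  have hB' := nf_23 hB
  clear hA hB
  rcases hA' with ⟨a1, a2, a3, a4⟩ <;> rcases hB' with ⟨b1, b2, b3, b4⟩ <;>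
    first
      | (exfalso; linarith)

theorem p_01_24 {L C y0 y1 t0 t1 X Y : ℝ} (hG : Good L C y0 y1 t0 t1)
    (hA : crW L C y0 y1 t0 t1 (6 * C) 0 1 X Y)
    (hB : crW L C y0 y1 t0 t1 (6 * C) 2 4 X Y) : False := by
  obtain ⟨g1, g2, g3, g4, g5, g6, g7, g8⟩ := hG
  have hA' := nf_01 hA
  have hB' := nf_24 hB
  clear hA hB
  rcases hA' with ⟨a1, a2, a3, a4⟩ <;> rcases hB' with ⟨b1, b2, b3, b4⟩ <;>
    first
      | (exfalso; linarith)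

theorem p_01_34 {L C y0 y1 t0 t1 X Y : ℝ} (hG : Good L C y0 y1 t0 t1)
    (hA : crW L C y0 y1 t0 t1 (6 * C) 0 1 X Y)
    (hB : crW L C y0 y1 t0 t1 (6 * C) 3 4 X Y) : False := by
  obtain ⟨g1, g2, g3, g4, g5, g6, g7, g8⟩ := hG
  have hA' := nf_01 hA
  have hB' := nf_34 hB
  clear hA hB
  rcases hA' with ⟨a1, a2, a3, a4⟩ <;> rcases hB' with ⟨b1, b2, b3, b4⟩ <;>
    first
      | (exfalso; linarith)

theorem p_02_03 {L C y0 y1 t0 t1 X Y : ℝ} (hG : Good L C y0 y1 t0 t1)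
    (hA : crW L C y0 y1 t0 t1 (6 * C) 0 2 X Y)
    (hB : crW L C y0 y1 t0 t1 (6 * C) 0 3 X Y) : cr L C y0 y1 t0 t1 0 0 X Y := by
  obtain ⟨g1, g2, g3, g4, g5, g6, g7, g8⟩ := hG
  have hA' := nf_02 hA
  have hB' := nf_03 hB
  clear hA hB
  change bx (30 * C + 0) 0 0 y0 y0 X Y
  rcases hA' with ⟨a1, a2, a3, a4⟩ | ⟨a1, a2, a3, a4⟩ | ⟨a1, a2, a3, a4⟩ <;> rcases hB' with ⟨b1, b2, b3, b4⟩ | ⟨b1, b2, b3, b4⟩ | ⟨b1, b2, b3, b4⟩ <;>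
    first
      | (exfalso; linarith)
      | exact ⟨by linarith, by linarith, by linarith, by linarith⟩

theorem p_02_04 {L C y0 y1 t0 t1 X Y : ℝ} (hG : Good L C y0 y1 t0 t1)
    (hA : crW L C y0 y1 t0 t1 (6 * C) 0 2 X Y)
    (hB : crW L C y0 y1 t0 t1 (6 * C) 0 4 X Y) : cr L C y0 y1 t0 t1 0 0 X Y := by
  obtain ⟨g1, g2, g3, g4, g5, g6, g7, g8⟩ := hG
  have hA' := nf_02 hA
  have hB' := nf_04 hB
  clear hA hB
  change bx (30 * C + 0) 0 0 y0 y0 X Y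
  rcases hA' with ⟨a1, a2, a3, a4⟩ | ⟨a1, a2, a3, a4⟩ | ⟨a1, a2, a3, a4⟩ <;> rcases hB' with ⟨b1, b2, b3, b4⟩ <;>
    first
      | (exfalso; linarith)
      | exact ⟨by linarith, by linarith, by linarith, by linarith⟩

theorem p_02_12 {L C y0 y1 t0 t1 X Y : ℝ} (hG : Good L C y0 y1 t0 t1)
    (hA : crW L C y0 y1 t0 t1 (6 * C) 0 2 X Y)
    (hB : crW L C y0 y1 t0 t1 (6 * C) 1 2 X Y) : cr L C y0 y1 t0 t1 0 2 X Y := by
  obtain ⟨g1, g2, g3, g4, g5, g6, g7, g8⟩ := hG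
  have hA' := nf_02 hA
  have hB' := nf_12 hB
  clear hA hB
  change bx (30 * C + 0) L L t1 t1 X Y
  rcases hA' with ⟨a1, a2, a3, a4⟩ | ⟨a1, a2, a3, a4⟩ | ⟨a1, a2, a3, a4⟩ <;> rcases hB' with ⟨b1, b2, b3, b4⟩ | ⟨b1, b2, b3, b4⟩ | ⟨b1, b2, b3, b4⟩ <;>
    first
      | (exfalso; linarith)
      | exact ⟨by linarith, by linarith, by linarith, by linarith⟩

theorem p_02_14 {L C y0 y1 t0 t1 X Y : ℝ} (hG : Good L C y0 y1 t0 t1)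
    (hA : crW L C y0 y1 t0 t1 (6 * C) 0 2 X Y)
    (hB : crW L C y0 y1 t0 t1 (6 * C) 1 4 X Y) : False := by
  obtain ⟨g1, g2, g3, g4, g5, g6, g7, g8⟩ := hG
  have hA' := nf_02 hA
  have hB' := nf_14 hB
  clear hA hB
  rcases hA' with ⟨a1, a2, a3, a4⟩ | ⟨a1, a2, a3, a4⟩ | ⟨a1, a2, a3, a4⟩ <;> rcases hB' with ⟨b1, b2, b3, b4⟩ <;>
    first
      | (exfalso; linarith)

theorem p_02_23 {L C y0 y1 t0 t1 X Y : ℝ} (hG : Good L C y0 y1 t0 t1)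
    (hA : crW L C y0 y1 t0 t1 (6 * C) 0 2 X Y)
    (hB : crW L C y0 y1 t0 t1 (6 * C) 2 3 X Y) : cr L C y0 y1 t0 t1 0 2 X Y := by
  obtain ⟨g1, g2, g3, g4, g5, g6, g7, g8⟩ := hG
  have hA' := nf_02 hA
  have hB' := nf_23 hB
  clear hA hB
  change bx (30 * C + 0) L L t1 t1 X Y
  rcases hA' with ⟨a1, a2, a3, a4⟩ | ⟨a1, a2, a3, a4⟩ | ⟨a1, a2, a3, a4⟩ <;> rcases hB' with ⟨b1, b2, b3, b4⟩ <;>
    first
      | (exfalso; linarith)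
      | exact ⟨by linarith, by linarith, by linarith, by linarith⟩

theorem p_02_24 {L C y0 y1 t0 t1 X Y : ℝ} (hG : Good L C y0 y1 t0 t1)
    (hA : crW L C y0 y1 t0 t1 (6 * C) 0 2 X Y)
    (hB : crW L C y0 y1 t0 t1 (6 * C) 2 4 X Y) : cr L C y0 y1 t0 t1 0 2 X Y := by
  obtain ⟨g1, g2, g3, g4, g5, g6, g7, g8⟩ := hG
  have hA' := nf_02 hA
  have hB' := nf_24 hB
  clear hA hB
  change bx (30 * C + 0) L L t1 t1 X Y
  rcases hA' with ⟨a1, a2, a3, a4⟩ | ⟨a1, a2, a3, a4⟩ | ⟨a1, a2, a3, a4⟩ <;> rcases hB' with ⟨b1, b2, b3, b4⟩ <;>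
    first
      | (exfalso; linarith)
      | exact ⟨by linarith, by linarith, by linarith, by linarith⟩

theorem p_02_34 {L C y0 y1 t0 t1 X Y : ℝ} (hG : Good L C y0 y1 t0 t1)
    (hA : crW L C y0 y1 t0 t1 (6 * C) 0 2 X Y)
    (hB : crW L C y0 y1 t0 t1 (6 * C) 3 4 X Y) : False := by
  obtain ⟨g1, g2, g3, g4, g5, g6, g7, g8⟩ := hG
  have hA' := nf_02 hA
  have hB' := nf_34 hB
  clear hA hB
  rcases hA' with ⟨a1, a2, a3, a4⟩ | ⟨a1, a2, a3, a4⟩ | ⟨a1, a2, a3, a4⟩ <;> rcases hB' with ⟨b1, b2, b3, b4⟩ <;>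
    first
      | (exfalso; linarith)

theorem p_03_04 {L C y0 y1 t0 t1 X Y : ℝ} (hG : Good L C y0 y1 t0 t1)
    (hA : crW L C y0 y1 t0 t1 (6 * C) 0 3 X Y)
    (hB : crW L C y0 y1 t0 t1 (6 * C) 0 4 X Y) : cr L C y0 y1 t0 t1 0 0 X Y := by
  obtain ⟨g1, g2, g3, g4, g5, g6, g7, g8⟩ := hG
  have hA' := nf_03 hA
  have hB' := nf_04 hB
  clear hA hB
  change bx (30 * C + 0) 0 0 y0 y0 X Y
  rcases hA' with ⟨a1, a2, a3, a4⟩ | ⟨a1, a2, a3, a4⟩ | ⟨a1, a2, a3, a4⟩ <;> rcases hB' with ⟨b1, b2, b3, b4⟩ <;>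
    first
      | (exfalso; linarith)
      | exact ⟨by linarith, by linarith, by linarith, by linarith⟩

theorem p_03_12 {L C y0 y1 t0 t1 X Y : ℝ} (hG : Good L C y0 y1 t0 t1)
    (hA : crW L C y0 y1 t0 t1 (6 * C) 0 3 X Y)
    (hB : crW L C y0 y1 t0 t1 (6 * C) 1 2 X Y) : False := by
  obtain ⟨g1, g2, g3, g4, g5, g6, g7, g8⟩ := hG
  have hA' := nf_03 hA
  have hB' := nf_12 hB
  clear hA hB
  rcases hA' with ⟨a1, a2, a3, a4⟩ | ⟨a1, a2, a3, a4⟩ | ⟨a1, a2, a3, a4⟩ <;> rcases hB' with ⟨b1, b2, b3, b4⟩ | ⟨b1, b2, b3, b4⟩ | ⟨b1, b2, b3, b4⟩ <;>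
    first
      | (exfalso; linarith)

theorem p_03_13 {L C y0 y1 t0 t1 X Y : ℝ} (hG : Good L C y0 y1 t0 t1)
    (hA : crW L C y0 y1 t0 t1 (6 * C) 0 3 X Y)
    (hB : crW L C y0 y1 t0 t1 (6 * C) 1 3 X Y) : cr L C y0 y1 t0 t1 0 3 X Y := by
  obtain ⟨g1, g2, g3, g4, g5, g6, g7, g8⟩ := hG
  have hA' := nf_03 hA
  have hB' := nf_13 hB
  clear hA hB
  change bx (30 * C + 0) L L t0 t0 X Y
  rcases hA' with ⟨a1, a2, a3, a4⟩ | ⟨a1, a2, a3, a4⟩ | ⟨a1, a2, a3, a4⟩ <;> rcases hB' with ⟨b1, b2, b3, b4⟩ | ⟨b1, b2, b3, b4⟩ | ⟨b1, b2, b3, b4⟩ <;>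
    first
      | (exfalso; linarith)
      | exact ⟨by linarith, by linarith, by linarith, by linarith⟩

theorem p_03_14 {L C y0 y1 t0 t1 X Y : ℝ} (hG : Good L C y0 y1 t0 t1)
    (hA : crW L C y0 y1 t0 t1 (6 * C) 0 3 X Y)
    (hB : crW L C y0 y1 t0 t1 (6 * C) 1 4 X Y) : False := by
  obtain ⟨g1, g2, g3, g4, g5, g6, g7, g8⟩ := hG
  have hA' := nf_03 hA
  have hB' := nf_14 hB
  clear hA hB
  rcases hA' with ⟨a1, a2, a3, a4⟩ | ⟨a1, a2, a3, a4⟩ | ⟨a1, a2, a3, a4⟩ <;> rcases hB' with ⟨b1, b2, b3, b4⟩ <;>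
    first
      | (exfalso; linarith)

theorem p_03_23 {L C y0 y1 t0 t1 X Y : ℝ} (hG : Good L C y0 y1 t0 t1)
    (hA : crW L C y0 y1 t0 t1 (6 * C) 0 3 X Y)
    (hB : crW L C y0 y1 t0 t1 (6 * C) 2 3 X Y) : cr L C y0 y1 t0 t1 0 3 X Y := by
  obtain ⟨g1, g2, g3, g4, g5, g6, g7, g8⟩ := hG
  have hA' := nf_03 hA
  have hB' := nf_23 hB
  clear hA hB
  change bx (30 * C + 0) L L t0 t0 X Y
  rcases hA' with ⟨a1, a2, a3, a4⟩ | ⟨a1, a2, a3, a4⟩ | ⟨a1, a2, a3, a4⟩ <;> rcases hB' with ⟨b1, b2, b3, b4⟩ <;>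
    first
      | (exfalso; linarith)
      | exact ⟨by linarith, by linarith, by linarith, by linarith⟩

theorem p_03_24 {L C y0 y1 t0 t1 X Y : ℝ} (hG : Good L C y0 y1 t0 t1)
    (hA : crW L C y0 y1 t0 t1 (6 * C) 0 3 X Y)
    (hB : crW L C y0 y1 t0 t1 (6 * C) 2 4 X Y) : False := by
  obtain ⟨g1, g2, g3, g4, g5, g6, g7, g8⟩ := hG
  have hA' := nf_03 hA
  have hB' := nf_24 hB
  clear hA hB
  rcases hA' with ⟨a1, a2, a3, a4⟩ | ⟨a1, a2, a3, a4⟩ | ⟨a1, a2, a3, a4⟩ <;> rcases hB' with ⟨b1, b2, b3, b4⟩ <;>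
    first
      | (exfalso; linarith)

theorem p_03_34 {L C y0 y1 t0 t1 X Y : ℝ} (hG : Good L C y0 y1 t0 t1)
    (hA : crW L C y0 y1 t0 t1 (6 * C) 0 3 X Y)
    (hB : crW L C y0 y1 t0 t1 (6 * C) 3 4 X Y) : cr L C y0 y1 t0 t1 0 3 X Y := by
  obtain ⟨g1, g2, g3, g4, g5, g6, g7, g8⟩ := hG
  have hA' := nf_03 hA
  have hB' := nf_34 hB
  clear hA hB
  change bx (30 * C + 0) L L t0 t0 X Y
  rcases hA' with ⟨a1, a2, a3, a4⟩ | ⟨a1, a2, a3, a4⟩ | ⟨a1, a2, a3, a4⟩ <;> rcases hB' with ⟨b1, b2, b3, b4⟩ <;>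
    first
      | (exfalso; linarith)
      | exact ⟨by linarith, by linarith, by linarith, by linarith⟩

theorem p_04_12 {L C y0 y1 t0 t1 X Y : ℝ} (hG : Good L C y0 y1 t0 t1)
    (hA : crW L C y0 y1 t0 t1 (6 * C) 0 4 X Y)
    (hB : crW L C y0 y1 t0 t1 (6 * C) 1 2 X Y) : False := by
  obtain ⟨g1, g2, g3, g4, g5, g6, g7, g8⟩ := hG
  have hA' := nf_04 hA
  have hB' := nf_12 hB
  clear hA hB
  rcases hA' with ⟨a1, a2, a3, a4⟩ <;> rcases hB' with ⟨b1, b2, b3, b4⟩ | ⟨b1, b2, b3, b4⟩ | ⟨b1, b2, b3, b4⟩ <;>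
    first
      | (exfalso; linarith)

theorem p_04_13 {L C y0 y1 t0 t1 X Y : ℝ} (hG : Good L C y0 y1 t0 t1)
    (hA : crW L C y0 y1 t0 t1 (6 * C) 0 4 X Y)
    (hB : crW L C y0 y1 t0 t1 (6 * C) 1 3 X Y) : False := by
  obtain ⟨g1, g2, g3, g4, g5, g6, g7, g8⟩ := hG
  have hA' := nf_04 hA
  have hB' := nf_13 hB
  clear hA hB
  rcases hA' with ⟨a1, a2, a3, a4⟩ <;> rcases hB' with ⟨b1, b2, b3, b4⟩ | ⟨b1, b2, b3, b4⟩ | ⟨b1, b2, b3, b4⟩ <;>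
    first
      | (exfalso; linarith)

theorem p_04_14 {L C y0 y1 t0 t1 X Y : ℝ} (hG : Good L C y0 y1 t0 t1)
    (hA : crW L C y0 y1 t0 t1 (6 * C) 0 4 X Y)
    (hB : crW L C y0 y1 t0 t1 (6 * C) 1 4 X Y) : False := by
  obtain ⟨g1, g2, g3, g4, g5, g6, g7, g8⟩ := hG
  have hA' := nf_04 hA
  have hB' := nf_14 hB
  clear hA hB
  rcases hA' with ⟨a1, a2, a3, a4⟩ <;> rcases hB' with ⟨b1, b2, b3, b4⟩ <;>
    first
      | (exfalso; linarith)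

theorem p_04_23 {L C y0 y1 t0 t1 X Y : ℝ} (hG : Good L C y0 y1 t0 t1)
    (hA : crW L C y0 y1 t0 t1 (6 * C) 0 4 X Y)
    (hB : crW L C y0 y1 t0 t1 (6 * C) 2 3 X Y) : False := by
  obtain ⟨g1, g2, g3, g4, g5, g6, g7, g8⟩ := hG
  have hA' := nf_04 hA
  have hB' := nf_23 hB
  clear hA hB
  rcases hA' with ⟨a1, a2, a3, a4⟩ <;> rcases hB' with ⟨b1, b2, b3, b4⟩ <;>
    first
      | (exfalso; linarith)

theorem p_04_24 {L C y0 y1 t0 t1 X Y : ℝ} (hG : Good L C y0 y1 t0 t1)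
    (hA : crW L C y0 y1 t0 t1 (6 * C) 0 4 X Y)
    (hB : crW L C y0 y1 t0 t1 (6 * C) 2 4 X Y) : False := by
  obtain ⟨g1, g2, g3, g4, g5, g6, g7, g8⟩ := hG
  have hA' := nf_04 hA
  have hB' := nf_24 hB
  clear hA hB
  rcases hA' with ⟨a1, a2, a3, a4⟩ <;> rcases hB' with ⟨b1, b2, b3, b4⟩ <;>
    first
      | (exfalso; linarith)

theorem p_04_34 {L C y0 y1 t0 t1 X Y : ℝ} (hG : Good L C y0 y1 t0 t1)
    (hA : crW L C y0 y1 t0 t1 (6 * C) 0 4 X Y)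
    (hB : crW L C y0 y1 t0 t1 (6 * C) 3 4 X Y) : False := by
  obtain ⟨g1, g2, g3, g4, g5, g6, g7, g8⟩ := hG
  have hA' := nf_04 hA
  have hB' := nf_34 hB
  clear hA hB
  rcases hA' with ⟨a1, a2, a3, a4⟩ <;> rcases hB' with ⟨b1, b2, b3, b4⟩ <;>
    first
      | (exfalso; linarith)

theorem p_12_13 {L C y0 y1 t0 t1 X Y : ℝ} (hG : Good L C y0 y1 t0 t1)
    (hA : crW L C y0 y1 t0 t1 (6 * C) 1 2 X Y)
    (hB : crW L C y0 y1 t0 t1 (6 * C) 1 3 X Y) : cr L C y0 y1 t0 t1 0 1 X Y := by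
  obtain ⟨g1, g2, g3, g4, g5, g6, g7, g8⟩ := hG
  have hA' := nf_12 hA
  have hB' := nf_13 hB
  clear hA hB
  change bx (30 * C + 0) 0 0 y1 y1 X Y
  rcases hA' with ⟨a1, a2, a3, a4⟩ | ⟨a1, a2, a3, a4⟩ | ⟨a1, a2, a3, a4⟩ <;> rcases hB' with ⟨b1, b2, b3, b4⟩ | ⟨b1, b2, b3, b4⟩ | ⟨b1, b2, b3, b4⟩ <;>
    first
      | (exfalso; linarith)
      | exact ⟨by linarith, by linarith, by linarith, by linarith⟩

theorem p_12_14 {L C y0 y1 t0 t1 X Y : ℝ} (hG : Good L C y0 y1 t0 t1)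
    (hA : crW L C y0 y1 t0 t1 (6 * C) 1 2 X Y)
    (hB : crW L C y0 y1 t0 t1 (6 * C) 1 4 X Y) : cr L C y0 y1 t0 t1 0 1 X Y := by
  obtain ⟨g1, g2, g3, g4, g5, g6, g7, g8⟩ := hG
  have hA' := nf_12 hA
  have hB' := nf_14 hB
  clear hA hB
  change bx (30 * C + 0) 0 0 y1 y1 X Y
  rcases hA' with ⟨a1, a2, a3, a4⟩ | ⟨a1, a2, a3, a4⟩ | ⟨a1, a2, a3, a4⟩ <;> rcases hB' with ⟨b1, b2, b3, b4⟩ <;>
    first
      | (exfalso; linarith)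
      | exact ⟨by linarith, by linarith, by linarith, by linarith⟩

theorem p_12_23 {L C y0 y1 t0 t1 X Y : ℝ} (hG : Good L C y0 y1 t0 t1)
    (hA : crW L C y0 y1 t0 t1 (6 * C) 1 2 X Y)
    (hB : crW L C y0 y1 t0 t1 (6 * C) 2 3 X Y) : cr L C y0 y1 t0 t1 0 2 X Y := by
  obtain ⟨g1, g2, g3, g4, g5, g6, g7, g8⟩ := hG
  have hA' := nf_12 hA
  have hB' := nf_23 hB
  clear hA hB
  change bx (30 * C + 0) L L t1 t1 X Y
  rcases hA' with ⟨a1, a2, a3, a4⟩ | ⟨a1, a2, a3, a4⟩ | ⟨a1, a2, a3, a4⟩ <;> rcases hB' with ⟨b1, b2, b3, b4⟩ <;>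
    first
      | (exfalso; linarith)
      | exact ⟨by linarith, by linarith, by linarith, by linarith⟩

theorem p_12_24 {L C y0 y1 t0 t1 X Y : ℝ} (hG : Good L C y0 y1 t0 t1)
    (hA : crW L C y0 y1 t0 t1 (6 * C) 1 2 X Y)
    (hB : crW L C y0 y1 t0 t1 (6 * C) 2 4 X Y) : cr L C y0 y1 t0 t1 0 2 X Y := by
  obtain ⟨g1, g2, g3, g4, g5, g6, g7, g8⟩ := hG
  have hA' := nf_12 hA
  have hB' := nf_24 hB
  clear hA hB
  change bx (30 * C + 0) L L t1 t1 X Y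
  rcases hA' with ⟨a1, a2, a3, a4⟩ | ⟨a1, a2, a3, a4⟩ | ⟨a1, a2, a3, a4⟩ <;> rcases hB' with ⟨b1, b2, b3, b4⟩ <;>
    first
      | (exfalso; linarith)
      | exact ⟨by linarith, by linarith, by linarith, by linarith⟩

theorem p_12_34 {L C y0 y1 t0 t1 X Y : ℝ} (hG : Good L C y0 y1 t0 t1)
    (hA : crW L C y0 y1 t0 t1 (6 * C) 1 2 X Y)
    (hB : crW L C y0 y1 t0 t1 (6 * C) 3 4 X Y) : False := by
  obtain ⟨g1, g2, g3, g4, g5, g6, g7, g8⟩ := hG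
  have hA' := nf_12 hA
  have hB' := nf_34 hB
  clear hA hB
  rcases hA' with ⟨a1, a2, a3, a4⟩ | ⟨a1, a2, a3, a4⟩ | ⟨a1, a2, a3, a4⟩ <;> rcases hB' with ⟨b1, b2, b3, b4⟩ <;>
    first
      | (exfalso; linarith)

theorem p_13_14 {L C y0 y1 t0 t1 X Y : ℝ} (hG : Good L C y0 y1 t0 t1)
    (hA : crW L C y0 y1 t0 t1 (6 * C) 1 3 X Y)
    (hB : crW L C y0 y1 t0 t1 (6 * C) 1 4 X Y) : cr L C y0 y1 t0 t1 0 1 X Y := by
  obtain ⟨g1, g2, g3, g4, g5, g6, g7, g8⟩ := hG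
  have hA' := nf_13 hA
  have hB' := nf_14 hB
  clear hA hB
  change bx (30 * C + 0) 0 0 y1 y1 X Y
  rcases hA' with ⟨a1, a2, a3, a4⟩ | ⟨a1, a2, a3, a4⟩ | ⟨a1, a2, a3, a4⟩ <;> rcases hB' with ⟨b1, b2, b3, b4⟩ <;>
    first
      | (exfalso; linarith)
      | exact ⟨by linarith, by linarith, by linarith, by linarith⟩

theorem p_13_23 {L C y0 y1 t0 t1 X Y : ℝ} (hG : Good L C y0 y1 t0 t1)
    (hA : crW L C y0 y1 t0 t1 (6 * C) 1 3 X Y)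
    (hB : crW L C y0 y1 t0 t1 (6 * C) 2 3 X Y) : cr L C y0 y1 t0 t1 0 3 X Y := by
  obtain ⟨g1, g2, g3, g4, g5, g6, g7, g8⟩ := hG
  have hA' := nf_13 hA
  have hB' := nf_23 hB
  clear hA hB
  change bx (30 * C + 0) L L t0 t0 X Y
  rcases hA' with ⟨a1, a2, a3, a4⟩ | ⟨a1, a2, a3, a4⟩ | ⟨a1, a2, a3, a4⟩ <;> rcases hB' with ⟨b1, b2, b3, b4⟩ <;>
    first
      | (exfalso; linarith)
      | exact ⟨by linarith, by linarith, by linarith, by linarith⟩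

theorem p_13_24 {L C y0 y1 t0 t1 X Y : ℝ} (hG : Good L C y0 y1 t0 t1)
    (hA : crW L C y0 y1 t0 t1 (6 * C) 1 3 X Y)
    (hB : crW L C y0 y1 t0 t1 (6 * C) 2 4 X Y) : False := by
  obtain ⟨g1, g2, g3, g4, g5, g6, g7, g8⟩ := hG
  have hA' := nf_13 hA
  have hB' := nf_24 hB
  clear hA hB
  rcases hA' with ⟨a1, a2, a3, a4⟩ | ⟨a1, a2, a3, a4⟩ | ⟨a1, a2, a3, a4⟩ <;> rcases hB' with ⟨b1, b2, b3, b4⟩ <;>
    first
      | (exfalso; linarith)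

theorem p_13_34 {L C y0 y1 t0 t1 X Y : ℝ} (hG : Good L C y0 y1 t0 t1)
    (hA : crW L C y0 y1 t0 t1 (6 * C) 1 3 X Y)
    (hB : crW L C y0 y1 t0 t1 (6 * C) 3 4 X Y) : cr L C y0 y1 t0 t1 0 3 X Y := by
  obtain ⟨g1, g2, g3, g4, g5, g6, g7, g8⟩ := hG
  have hA' := nf_13 hA
  have hB' := nf_34 hB
  clear hA hB
  change bx (30 * C + 0) L L t0 t0 X Y
  rcases hA' with ⟨a1, a2, a3, a4⟩ | ⟨a1, a2, a3, a4⟩ | ⟨a1, a2, a3, a4⟩ <;> rcases hB' with ⟨b1, b2, b3, b4⟩ <;>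
    first
      | (exfalso; linarith)
      | exact ⟨by linarith, by linarith, by linarith, by linarith⟩

theorem p_14_23 {L C y0 y1 t0 t1 X Y : ℝ} (hG : Good L C y0 y1 t0 t1)
    (hA : crW L C y0 y1 t0 t1 (6 * C) 1 4 X Y)
    (hB : crW L C y0 y1 t0 t1 (6 * C) 2 3 X Y) : False := by
  obtain ⟨g1, g2, g3, g4, g5, g6, g7, g8⟩ := hG
  have hA' := nf_14 hA
  have hB' := nf_23 hB
  clear hA hB
  rcases hA' with ⟨a1, a2, a3, a4⟩ <;> rcases hB' with ⟨b1, b2, b3, b4⟩ <;>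
    first
      | (exfalso; linarith)

theorem p_14_24 {L C y0 y1 t0 t1 X Y : ℝ} (hG : Good L C y0 y1 t0 t1)
    (hA : crW L C y0 y1 t0 t1 (6 * C) 1 4 X Y)
    (hB : crW L C y0 y1 t0 t1 (6 * C) 2 4 X Y) : False := by
  obtain ⟨g1, g2, g3, g4, g5, g6, g7, g8⟩ := hG
  have hA' := nf_14 hA
  have hB' := nf_24 hB
  clear hA hB
  rcases hA' with ⟨a1, a2, a3, a4⟩ <;> rcases hB' with ⟨b1, b2, b3, b4⟩ <;>
    first
      | (exfalso; linarith)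

theorem p_14_34 {L C y0 y1 t0 t1 X Y : ℝ} (hG : Good L C y0 y1 t0 t1)
    (hA : crW L C y0 y1 t0 t1 (6 * C) 1 4 X Y)
    (hB : crW L C y0 y1 t0 t1 (6 * C) 3 4 X Y) : False := by
  obtain ⟨g1, g2, g3, g4, g5, g6, g7, g8⟩ := hG
  have hA' := nf_14 hA
  have hB' := nf_34 hB
  clear hA hB
  rcases hA' with ⟨a1, a2, a3, a4⟩ <;> rcases hB' with ⟨b1, b2, b3, b4⟩ <;>
    first
      | (exfalso; linarith)

theorem p_23_24 {L C y0 y1 t0 t1 X Y : ℝ} (hG : Good L C y0 y1 t0 t1)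
    (hA : crW L C y0 y1 t0 t1 (6 * C) 2 3 X Y)
    (hB : crW L C y0 y1 t0 t1 (6 * C) 2 4 X Y) : cr L C y0 y1 t0 t1 0 2 X Y := by
  obtain ⟨g1, g2, g3, g4, g5, g6, g7, g8⟩ := hG
  have hA' := nf_23 hA
  have hB' := nf_24 hB
  clear hA hB
  change bx (30 * C + 0) L L t1 t1 X Y
  rcases hA' with ⟨a1, a2, a3, a4⟩ <;> rcases hB' with ⟨b1, b2, b3, b4⟩ <;>
    first
      | (exfalso; linarith)
      | exact ⟨by linarith, by linarith, by linarith, by linarith⟩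

theorem p_23_34 {L C y0 y1 t0 t1 X Y : ℝ} (hG : Good L C y0 y1 t0 t1)
    (hA : crW L C y0 y1 t0 t1 (6 * C) 2 3 X Y)
    (hB : crW L C y0 y1 t0 t1 (6 * C) 3 4 X Y) : cr L C y0 y1 t0 t1 0 3 X Y := by
  obtain ⟨g1, g2, g3, g4, g5, g6, g7, g8⟩ := hG
  have hA' := nf_23 hA
  have hB' := nf_34 hB
  clear hA hB
  change bx (30 * C + 0) L L t0 t0 X Y
  rcases hA' with ⟨a1, a2, a3, a4⟩ <;> rcases hB' with ⟨b1, b2, b3, b4⟩ <;>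
    first
      | (exfalso; linarith)
      | exact ⟨by linarith, by linarith, by linarith, by linarith⟩

theorem p_24_34 {L C y0 y1 t0 t1 X Y : ℝ} (hG : Good L C y0 y1 t0 t1)
    (hA : crW L C y0 y1 t0 t1 (6 * C) 2 4 X Y)
    (hB : crW L C y0 y1 t0 t1 (6 * C) 3 4 X Y) : False := by
  obtain ⟨g1, g2, g3, g4, g5, g6, g7, g8⟩ := hG
  have hA' := nf_24 hA
  have hB' := nf_34 hB
  clear hA hB
  rcases hA' with ⟨a1, a2, a3, a4⟩ <;> rcases hB' with ⟨b1, b2, b3, b4⟩ <;>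
    first
      | (exfalso; linarith)

theorem lt_cases : ∀ i j : Fin 5, i < j → (i = 0 ∧ j = 1) ∨ (i = 0 ∧ j = 2) ∨ (i = 0 ∧ j = 3) ∨
    (i = 0 ∧ j = 4) ∨ (i = 1 ∧ j = 2) ∨ (i = 1 ∧ j = 3) ∨ (i = 1 ∧ j = 4) ∨ (i = 2 ∧ j = 3) ∨
    (i = 2 ∧ j = 4) ∨ (i = 3 ∧ j = 4) := by
  decide

theorem s_PLB : S_PLB := by
  intro L C y0 y1 t0 t1 X Y hG i j k l hij hkl hne h1 h2 hA hB
  rcases lt_cases i j hij with ⟨rfl, rfl⟩ | ⟨rfl, rfl⟩ | ⟨rfl, rfl⟩ | ⟨rfl, rfl⟩ | ⟨rfl, rfl⟩ |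
    ⟨rfl, rfl⟩ | ⟨rfl, rfl⟩ | ⟨rfl, rfl⟩ | ⟨rfl, rfl⟩ | ⟨rfl, rfl⟩
  · rcases lt_cases k l hkl with ⟨rfl, rfl⟩ | ⟨rfl, rfl⟩ | ⟨rfl, rfl⟩ | ⟨rfl, rfl⟩ | ⟨rfl, rfl⟩ |
      ⟨rfl, rfl⟩ | ⟨rfl, rfl⟩ | ⟨rfl, rfl⟩ | ⟨rfl, rfl⟩ | ⟨rfl, rfl⟩
    · exact absurd rfl hne
    · exact Or.inl (p_01_02 hG hA hB)
    · exact Or.inl (p_01_03 hG hA hB)
    · exact Or.inl (p_01_04 hG hA hB)
    · exact Or.inr (p_01_12 hG hA hB)
    · exact Or.inr (p_01_13 hG hA hB)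
    · exact Or.inr (p_01_14 hG hA hB)
    · exact absurd (p_01_23 hG hA hB) not_false
    · exact absurd (p_01_24 hG hA hB) not_false
    · exact absurd (p_01_34 hG hA hB) not_false
  · rcases lt_cases k l hkl with ⟨rfl, rfl⟩ | ⟨rfl, rfl⟩ | ⟨rfl, rfl⟩ | ⟨rfl, rfl⟩ | ⟨rfl, rfl⟩ |
      ⟨rfl, rfl⟩ | ⟨rfl, rfl⟩ | ⟨rfl, rfl⟩ | ⟨rfl, rfl⟩ | ⟨rfl, rfl⟩
    · exact Or.inl (p_01_02 hG hB hA)
    · exact absurd rfl hne
    · exact Or.inl (p_02_03 hG hA hB)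
    · exact Or.inl (p_02_04 hG hA hB)
    · exact Or.inr (p_02_12 hG hA hB)
    · exact absurd ⟨rfl, rfl, rfl, rfl⟩ h1
    · exact absurd (p_02_14 hG hA hB) not_false
    · exact Or.inr (p_02_23 hG hA hB)
    · exact Or.inr (p_02_24 hG hA hB)
    · exact absurd (p_02_34 hG hA hB) not_false
  · rcases lt_cases k l hkl with ⟨rfl, rfl⟩ | ⟨rfl, rfl⟩ | ⟨rfl, rfl⟩ | ⟨rfl, rfl⟩ | ⟨rfl, rfl⟩ |
      ⟨rfl, rfl⟩ | ⟨rfl, rfl⟩ | ⟨rfl, rfl⟩ | ⟨rfl, rfl⟩ | ⟨rfl, rfl⟩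
    · exact Or.inl (p_01_03 hG hB hA)
    · exact Or.inl (p_02_03 hG hB hA)
    · exact absurd rfl hne
    · exact Or.inl (p_03_04 hG hA hB)
    · exact absurd (p_03_12 hG hA hB) not_false
    · exact Or.inr (p_03_13 hG hA hB)
    · exact absurd (p_03_14 hG hA hB) not_false
    · exact Or.inr (p_03_23 hG hA hB)
    · exact absurd (p_03_24 hG hA hB) not_false
    · exact Or.inr (p_03_34 hG hA hB)
  · rcases lt_cases k l hkl with ⟨rfl, rfl⟩ | ⟨rfl, rfl⟩ | ⟨rfl, rfl⟩ | ⟨rfl, rfl⟩ | ⟨rfl, rfl⟩ |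
      ⟨rfl, rfl⟩ | ⟨rfl, rfl⟩ | ⟨rfl, rfl⟩ | ⟨rfl, rfl⟩ | ⟨rfl, rfl⟩
    · exact Or.inl (p_01_04 hG hB hA)
    · exact Or.inl (p_02_04 hG hB hA)
    · exact Or.inl (p_03_04 hG hB hA)
    · exact absurd rfl hne
    · exact absurd (p_04_12 hG hA hB) not_false
    · exact absurd (p_04_13 hG hA hB) not_false
    · exact absurd (p_04_14 hG hA hB) not_false
    · exact absurd (p_04_23 hG hA hB) not_false
    · exact absurd (p_04_24 hG hA hB) not_false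
    · exact absurd (p_04_34 hG hA hB) not_false
  · rcases lt_cases k l hkl with ⟨rfl, rfl⟩ | ⟨rfl, rfl⟩ | ⟨rfl, rfl⟩ | ⟨rfl, rfl⟩ | ⟨rfl, rfl⟩ |
      ⟨rfl, rfl⟩ | ⟨rfl, rfl⟩ | ⟨rfl, rfl⟩ | ⟨rfl, rfl⟩ | ⟨rfl, rfl⟩
    · exact Or.inl (p_01_12 hG hB hA)
    · exact Or.inr (p_02_12 hG hB hA)
    · exact absurd (p_03_12 hG hB hA) not_false
    · exact absurd (p_04_12 hG hB hA) not_false
    · exact absurd rfl hne
    · exact Or.inl (p_12_13 hG hA hB)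
    · exact Or.inl (p_12_14 hG hA hB)
    · exact Or.inr (p_12_23 hG hA hB)
    · exact Or.inr (p_12_24 hG hA hB)
    · exact absurd (p_12_34 hG hA hB) not_false
  · rcases lt_cases k l hkl with ⟨rfl, rfl⟩ | ⟨rfl, rfl⟩ | ⟨rfl, rfl⟩ | ⟨rfl, rfl⟩ | ⟨rfl, rfl⟩ |
      ⟨rfl, rfl⟩ | ⟨rfl, rfl⟩ | ⟨rfl, rfl⟩ | ⟨rfl, rfl⟩ | ⟨rfl, rfl⟩
    · exact Or.inl (p_01_13 hG hB hA)
    · exact absurd ⟨rfl, rfl, rfl, rfl⟩ h2
    · exact Or.inr (p_03_13 hG hB hA)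
    · exact absurd (p_04_13 hG hB hA) not_false
    · exact Or.inl (p_12_13 hG hB hA)
    · exact absurd rfl hne
    · exact Or.inl (p_13_14 hG hA hB)
    · exact Or.inr (p_13_23 hG hA hB)
    · exact absurd (p_13_24 hG hA hB) not_false
    · exact Or.inr (p_13_34 hG hA hB)
  · rcases lt_cases k l hkl with ⟨rfl, rfl⟩ | ⟨rfl, rfl⟩ | ⟨rfl, rfl⟩ | ⟨rfl, rfl⟩ | ⟨rfl, rfl⟩ |
      ⟨rfl, rfl⟩ | ⟨rfl, rfl⟩ | ⟨rfl, rfl⟩ | ⟨rfl, rfl⟩ | ⟨rfl, rfl⟩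
    · exact Or.inl (p_01_14 hG hB hA)
    · exact absurd (p_02_14 hG hB hA) not_false
    · exact absurd (p_03_14 hG hB hA) not_false
    · exact absurd (p_04_14 hG hB hA) not_false
    · exact Or.inl (p_12_14 hG hB hA)
    · exact Or.inl (p_13_14 hG hB hA)
    · exact absurd rfl hne
    · exact absurd (p_14_23 hG hA hB) not_false
    · exact absurd (p_14_24 hG hA hB) not_false
    · exact absurd (p_14_34 hG hA hB) not_false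
  · rcases lt_cases k l hkl with ⟨rfl, rfl⟩ | ⟨rfl, rfl⟩ | ⟨rfl, rfl⟩ | ⟨rfl, rfl⟩ | ⟨rfl, rfl⟩ |
      ⟨rfl, rfl⟩ | ⟨rfl, rfl⟩ | ⟨rfl, rfl⟩ | ⟨rfl, rfl⟩ | ⟨rfl, rfl⟩
    · exact absurd (p_01_23 hG hB hA) not_false
    · exact Or.inl (p_02_23 hG hB hA)
    · exact Or.inr (p_03_23 hG hB hA)
    · exact absurd (p_04_23 hG hB hA) not_false
    · exact Or.inl (p_12_23 hG hB hA)
    · exact Or.inr (p_13_23 hG hB hA)
    · exact absurd (p_14_23 hG hB hA) not_false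
    · exact absurd rfl hne
    · exact Or.inl (p_23_24 hG hA hB)
    · exact Or.inr (p_23_34 hG hA hB)
  · rcases lt_cases k l hkl with ⟨rfl, rfl⟩ | ⟨rfl, rfl⟩ | ⟨rfl, rfl⟩ | ⟨rfl, rfl⟩ | ⟨rfl, rfl⟩ |
      ⟨rfl, rfl⟩ | ⟨rfl, rfl⟩ | ⟨rfl, rfl⟩ | ⟨rfl, rfl⟩ | ⟨rfl, rfl⟩
    · exact absurd (p_01_24 hG hB hA) not_false
    · exact Or.inl (p_02_24 hG hB hA)
    · exact absurd (p_03_24 hG hB hA) not_false
    · exact absurd (p_04_24 hG hB hA) not_false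
    · exact Or.inl (p_12_24 hG hB hA)
    · exact absurd (p_13_24 hG hB hA) not_false
    · exact absurd (p_14_24 hG hB hA) not_false
    · exact Or.inl (p_23_24 hG hB hA)
    · exact absurd rfl hne
    · exact absurd (p_24_34 hG hA hB) not_false
  · rcases lt_cases k l hkl with ⟨rfl, rfl⟩ | ⟨rfl, rfl⟩ | ⟨rfl, rfl⟩ | ⟨rfl, rfl⟩ | ⟨rfl, rfl⟩ |
      ⟨rfl, rfl⟩ | ⟨rfl, rfl⟩ | ⟨rfl, rfl⟩ | ⟨rfl, rfl⟩ | ⟨rfl, rfl⟩
    · exact absurd (p_01_34 hG hB hA) not_false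
    · exact absurd (p_02_34 hG hB hA) not_false
    · exact Or.inl (p_03_34 hG hB hA)
    · exact absurd (p_04_34 hG hB hA) not_false
    · exact absurd (p_12_34 hG hB hA) not_false
    · exact Or.inl (p_13_34 hG hB hA)
    · exact absurd (p_14_34 hG hB hA) not_false
    · exact Or.inl (p_23_34 hG hB hA)
    · exact absurd (p_24_34 hG hB hA) not_false
    · exact absurd rfl hne

end Pool.Agent.L7h79.PM
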