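import Mathlib
import Pool.Agent.L7h49.PM.Def2
import Pool.Agent.L7h79.PM.Reg

/-!
# Project PM, part RG2: the thin ellipse, positive slope
-/

set_option autoImplicit false

namespace Pool.Agent.L7h79.PM

open Pool.Agent.L7h49.PM

/-- The point does not go down by more than `66C`. -/
theorem rgb_core (u0 u1 v0 v1 ρ σ D C : ℝ) (hC : 0 ≤ C) (hρ : 0 ≤ ρ) (hσ : 0 ≤ σ) (hD : 0 ≤ D)
    (hρ2 : ρ ^ 2 = u0 ^ 2 + u1 ^ 2) (hσ2 : σ ^ 2 = v0 ^ 2 + v1 ^ 2)
    (hD2 : D ^ 2 = (u0 + v0) ^ 2 + (u1 + v1) ^ 2) (hE : 0 < u0 + v0) (hF : 0 < u1 + v1)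
    (hDF : D ≤ 22 * (u1 + v1)) (h : ρ + σ ≤ D + 3 * C) : -(66 * C) ≤ u1 := by
  set E := u0 + v0 with hEdef
  set F := u1 + v1 with hFdef
  have hED : E ≤ D := by
    apply le_of_sq_le_sq _ hD
    nlinarith [sq_nonneg F]
  have hcs : v0 * E + v1 * F ≤ σ * D := by
    apply le_of_sq_le_sq _ (by positivity)
    have : (σ * D) ^ 2 = (v0 ^ 2 + v1 ^ 2) * (E ^ 2 + F ^ 2) := by rw [mul_pow, hσ2, hD2]
    rw [this]
    nlinarith [sq_nonneg (v0 * F - v1 * E)]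
  have hu0 : u0 ≤ ρ := by
    apply le_of_sq_le_sq _ hρ
    nlinarith [sq_nonneg u1]
  have hsum : u0 * E + u1 * F + (v0 * E + v1 * F) = D ^ 2 := by
    rw [hD2, hEdef, hFdef]; ring
  have h1 : D * (ρ - 3 * C) ≤ u0 * E + u1 * F := by nlinarith
  have h2 : u0 * E ≤ ρ * E := mul_le_mul_of_nonneg_right hu0 hE.le
  have h3 : ρ * E ≤ ρ * D := mul_le_mul_of_nonneg_left hED hρ
  have h4 : D * C ≤ 22 * F * C := mul_le_mul_of_nonneg_right hDF hC
  have h5 : F * (-(66 * C)) ≤ F * u1 := by nlinarith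
  exact le_of_mul_le_mul_left h5 hF

theorem s_RG2 : S_RG2 := by
  intro L C y t a c w hC hL hy0 hy ht ht' ha hc hw
  have ha' := reg_coord _ _ ha
  have hc' := reg_coord _ _ hc
  simp only [pt, PiLp.sub_apply, Matrix.cons_val_zero, Matrix.cons_val_one] at ha' hc'
  obtain ⟨ha0, ha1⟩ := ha'
  obtain ⟨hc0, hc1⟩ := hc'
  rw [abs_le] at ha0 ha1 hc0 hc1
  have hρ := norm_nonneg (w - a)
  have hσ := norm_nonneg (w - c)
  have hD := norm_nonneg (a - c)
  have hρ2 := reg_sq (w - a)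
  have hσ2 := reg_sq (w - c)
  have hD2 := reg_sq (a - c)
  simp only [PiLp.sub_apply] at hρ2 hσ2 hD2
  set ρ := ‖w - a‖ with hρd
  set σ := ‖w - c‖ with hσd
  set D := ‖a - c‖ with hDd
  have hFabs : |c 1 - a 1| ≤ (c 0 - a 0) / 3 := by
    rw [abs_le]; constructor <;> linarith
  have e1 : w 1 - a 1 + (c 1 - w 1) = c 1 - a 1 := by ring
  have e2 : w 0 - a 0 + (c 0 - w 0) = c 0 - a 0 := by ring
  have e3 : c 1 - w 1 + (w 1 - a 1) = c 1 - a 1 := by ring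
  have e4 : c 0 - w 0 + (w 0 - a 0) = c 0 - a 0 := by ring
  have k1 : 3 / 5 * ρ - 6 * C ≤ w 0 - a 0 := by
    apply reg_core (w 0 - a 0) (w 1 - a 1) (c 0 - w 0) (c 1 - w 1) ρ σ D C (by linarith) hρ hσ hD
      hρ2 (by rw [hσ2]; ring) (by rw [hD2]; ring) (by linarith) _ hw
    rw [e1, e2]; exact hFabs
  have k2 : 3 / 5 * σ - 6 * C ≤ c 0 - w 0 := by
    apply reg_core (c 0 - w 0) (c 1 - w 1) (w 0 - a 0) (w 1 - a 1) σ ρ D C (by linarith) hσ hρ hD
      (by rw [hσ2]; ring) hρ2 (by rw [hD2]; ring) (by linarith) _ (by linarith)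
    rw [e3, e4]; exact hFabs
  have hwa : |w 1 - a 1| ≤ ρ := by
    apply abs_le_of_sq_le_sq _ hρ
    nlinarith [sq_nonneg (w 0 - a 0)]
  have hwc : |w 1 - c 1| ≤ σ := by
    apply abs_le_of_sq_le_sq _ hσ
    nlinarith [sq_nonneg (w 0 - c 0)]
  rw [abs_le] at hwa hwc
  have hDle : D ≤ 101 / 100 * L := by
    apply le_of_sq_le_sq _ (by linarith)
    have h1 : (a 0 - c 0) ^ 2 ≤ (10002 / 10000 * L) ^ 2 := by
      apply sq_le_sq'
      · linarith
      · linarith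
    have h2 : (a 1 - c 1) ^ 2 ≤ (112 / 1000 * L) ^ 2 := by
      apply sq_le_sq'
      · linarith
      · linarith
    nlinarith [sq_nonneg L]
  have hDF : D ≤ 22 * (c 1 - a 1) := by linarith
  have m1 : -(66 * C) ≤ w 1 - a 1 := by
    apply rgb_core (w 0 - a 0) (w 1 - a 1) (c 0 - w 0) (c 1 - w 1) ρ σ D C (by linarith) hρ hσ hD
      hρ2 (by rw [hσ2]; ring) (by rw [hD2]; ring) (by linarith) (by linarith) _ hw
    rw [e1]; exact hDF
  have m2 : -(66 * C) ≤ c 1 - w 1 := by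
    apply rgb_core (c 0 - w 0) (c 1 - w 1) (w 0 - a 0) (w 1 - a 1) σ ρ D C (by linarith) hσ hρ hD
      (by rw [hσ2]; ring) hρ2 (by rw [hD2]; ring) (by linarith) (by linarith) _ (by linarith)
    rw [e3]; exact hDF
  refine ⟨by linarith, by linarith, by linarith, by linarith, ?_, ?_⟩
  · intro hX
    rw [abs_le]
    constructor <;> linarith
  · intro hX
    rw [abs_le]
    constructor <;> linarith

end Pool.Agent.L7h79.PM
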