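import Mathlib
import Pool.Agent.L7h49.PM.Def2
import Pool.Agent.L7h79.PM.Min

/-!
# Project PM, part SPL: cutting a connected set on its way from `S` to `T`
-/

set_option autoImplicit false

namespace Pool.Agent.L7h79.PM

open Pool.Agent.L7h49.PM

theorem s_SPL : S_SPL := by
  intro V G S T W hW hS hT hST hSc
  obtain ⟨X, h1, h2, h3, h4, x, hx, y, hy, hxy⟩ := min_cut G W S T hW hS hT hST
  refine ⟨X, h1, h2, ?_, x, Or.inr hx, y, hy, hxy⟩
  apply SimpleGraph.induce_union_connected hSc.preconnected h4.preconnected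
  rw [Set.inter_comm]
  exact h3

end Pool.Agent.L7h79.PM
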